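import Mathlib

/-! The group `2^5 : (Q₈ ∘ SL₂(5))`. -/

set_option autoImplicit false
set_option linter.all false
set_option maxRecDepth 100000

namespace Pool.Agent.Helper273.FS

/-- `SL₂(5)` -/
@[ext] structure SL where
  a : ZMod 5
  b : ZMod 5
  c : ZMod 5
  d : ZMod 5
  h : a * d - b * c = 1
deriving DecidableEq

namespace SL

instance : Mul SL := ⟨fun s t => ⟨s.a * t.a + s.b * t.c, s.a * t.b + s.b * t.d, s.c * t.a + s.d * t.c,
  s.c * t.b + s.d * t.d, by have h1 := s.h; have h2 := t.h; linear_combination h1 * (t.a * t.d - t.b * t.c) + h2⟩⟩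

instance : One SL := ⟨⟨1, 0, 0, 1, by ring⟩⟩

instance : Inv SL := ⟨fun s => ⟨s.d, -s.b, -s.c, s.a, by have h1 := s.h; linear_combination h1⟩⟩

/-- multiplication by the central element `-1` if the sign bit is set -/
def sg (e : Bool) (s : SL) : SL := match e with
  | false => s
  | true => ⟨-s.a, -s.b, -s.c, -s.d, by have h1 := s.h; linear_combination h1⟩

theorem mul_def (s t : SL) : s * t = ⟨s.a * t.a + s.b * t.c, s.a * t.b + s.b * t.d, s.c * t.a + s.d * t.c,
  s.c * t.b + s.d * t.d, by have h1 := s.h; have h2 := t.h; linear_combination h1 * (t.a * t.d - t.b * t.c) + h2⟩ := rfl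

theorem mul_assoc' (s t r : SL) : s * t * r = s * (t * r) := by
  simp only [mul_def]
  ext <;> ring

theorem one_mul' (s : SL) : 1 * s = s := by
  have h1 : (1 : SL) = ⟨1, 0, 0, 1, by ring⟩ := rfl
  rw [mul_def, h1]
  ext <;> ring

theorem mul_one' (s : SL) : s * 1 = s := by
  have h1 : (1 : SL) = ⟨1, 0, 0, 1, by ring⟩ := rfl
  rw [mul_def, h1]
  ext <;> ring

theorem inv_mul' (s : SL) : s⁻¹ * s = 1 := by
  have h1 : (1 : SL) = ⟨1, 0, 0, 1, by ring⟩ := rfl
  have h2 : s⁻¹ = ⟨s.d, -s.b, -s.c, s.a, by have h1 := s.h; linear_combination h1⟩ := rfl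
  have h3 := s.h
  rw [mul_def, h1, h2]
  ext
  · simp only; linear_combination h3
  · simp only; ring
  · simp only; ring
  · simp only; linear_combination h3

instance : Group SL := Group.ofLeftAxioms mul_assoc' one_mul' inv_mul'

theorem sg_mul (e : Bool) (s t : SL) : sg e s * t = sg e (s * t) := by
  cases e
  · rfl
  · simp only [sg, mul_def]
    ext <;> ring

theorem mul_sg (e : Bool) (s t : SL) : s * sg e t = sg e (s * t) := by
  cases e
  · rfl
  · simp only [sg, mul_def]
    ext <;> ring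

theorem sg_sg (e f : Bool) (s : SL) : sg e (sg f s) = sg (xor e f) s := by
  cases e <;> cases f <;> simp [sg]

theorem mul_a (s t : SL) : (s * t).a = s.a * t.a + s.b * t.c := rfl
theorem mul_b (s t : SL) : (s * t).b = s.a * t.b + s.b * t.d := rfl
theorem mul_c (s t : SL) : (s * t).c = s.c * t.a + s.d * t.c := rfl
theorem mul_d (s t : SL) : (s * t).d = s.c * t.b + s.d * t.d := rfl

/-- Elements with `2 ^ 2` entries. -/
def equivSub : SL ≃ {p : ZMod 5 × ZMod 5 × ZMod 5 × ZMod 5 // p.1 * p.2.2.2 - p.2.1 * p.2.2.1 = 1} where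
  toFun s := ⟨(s.a, s.b, s.c, s.d), s.h⟩
  invFun p := ⟨p.1.1, p.1.2.1, p.1.2.2.1, p.1.2.2.2, p.2⟩
  left_inv _ := rfl
  right_inv _ := rfl

instance : Fintype SL := Fintype.ofEquiv _ equivSub.symm

end SL

/-- homogeneous coordinates on the projective line over the field with five elements -/
def nrm (x y : ZMod 5) : Option (ZMod 5) := if y = 0 then none else some (x * (y * y * y))

/-- Möbius action -/
def mob (s : SL) : Option (ZMod 5) → Option (ZMod 5)
  | none => nrm s.a s.c
  | some p => nrm (s.a * p + s.b) (s.c * p + s.d)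

theorem mob_nrm_aux : ∀ a b c d : ZMod 5, ∀ h : a * d - b * c = 1, ∀ x y : ZMod 5, (x ≠ 0 ∨ y ≠ 0) →
    mob ⟨a, b, c, d, h⟩ (nrm x y) = nrm (a * x + b * y) (c * x + d * y) := by
  decide +kernel

theorem mob_nrm (s : SL) (x y : ZMod 5) (h : x ≠ 0 ∨ y ≠ 0) :
    mob s (nrm x y) = nrm (s.a * x + s.b * y) (s.c * x + s.d * y) :=
  mob_nrm_aux s.a s.b s.c s.d s.h x y h

theorem sl_col (s : SL) (x y : ZMod 5) (h : x ≠ 0 ∨ y ≠ 0) :
    s.a * x + s.b * y ≠ 0 ∨ s.c * x + s.d * y ≠ 0 := by
  by_contra hcon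
  push Not at hcon
  obtain ⟨h1, h2⟩ := hcon
  have h3 := s.h
  have hx : x = 0 := by linear_combination s.d * h1 - s.b * h2 - x * h3
  have hy : y = 0 := by linear_combination s.a * h2 - s.c * h1 - y * h3
  rcases h with h | h
  · exact h hx
  · exact h hy

theorem exists_nrm (p : Option (ZMod 5)) : ∃ x y : ZMod 5, (x ≠ 0 ∨ y ≠ 0) ∧ p = nrm x y := by
  cases p with
  | none => exact ⟨1, 0, by decide, rfl⟩
  | some p =>
    refine ⟨p, 1, by right; decide, ?_⟩
    have h : (1 : ZMod 5) ≠ 0 := by decide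
    simp [nrm, h]

theorem mob_mul (s t : SL) (p : Option (ZMod 5)) : mob (s * t) p = mob s (mob t p) := by
  obtain ⟨x, y, h, rfl⟩ := exists_nrm p
  rw [mob_nrm _ _ _ h, mob_nrm _ _ _ h, mob_nrm _ _ _ (sl_col t x y h)]
  simp only [SL.mul_a, SL.mul_b, SL.mul_c, SL.mul_d]
  congr 1 <;> ring

theorem mob_one (p : Option (ZMod 5)) : mob 1 p = p := by
  obtain ⟨x, y, h, rfl⟩ := exists_nrm p
  rw [mob_nrm _ _ _ h]
  have h1 : (1 : SL) = ⟨1, 0, 0, 1, by ring⟩ := rfl
  rw [h1]
  congr 1 <;> ring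

theorem mob_sg_aux : ∀ a b c d : ZMod 5, ∀ h : a * d - b * c = 1, ∀ p : Option (ZMod 5),
    mob (SL.sg true ⟨a, b, c, d, h⟩) p = mob ⟨a, b, c, d, h⟩ p := by
  decide +kernel

theorem mob_sg (e : Bool) (s : SL) (p : Option (ZMod 5)) : mob (SL.sg e s) p = mob s p := by
  cases e
  · rfl
  · exact mob_sg_aux s.a s.b s.c s.d s.h p

/-- functions on the projective line modulo constants, normalised to vanish at infinity -/
abbrev V := ZMod 5 → Bool

def ev (f : V) : Option (ZMod 5) → Bool
  | none => false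
  | some p => f p

def act (s : SL) (f : V) : V := fun p => xor (ev f (mob s⁻¹ (some p))) (ev f (mob s⁻¹ none))

def add (f g : V) : V := fun p => xor (f p) (g p)

theorem ev_act (s : SL) (f : V) (q : Option (ZMod 5)) :
    ev (act s f) q = xor (ev f (mob s⁻¹ q)) (ev f (mob s⁻¹ none)) := by
  cases q with
  | none => simp [ev]
  | some p => rfl

theorem act_mul (s t : SL) (f : V) : act (s * t) f = act s (act t f) := by
  funext p
  change xor (ev f (mob (s * t)⁻¹ (some p))) (ev f (mob (s * t)⁻¹ none)) =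
    xor (ev (act t f) (mob s⁻¹ (some p))) (ev (act t f) (mob s⁻¹ none))
  rw [ev_act, ev_act, mul_inv_rev, mob_mul, mob_mul]
  generalize ev f (mob t⁻¹ (mob s⁻¹ (some p))) = a
  generalize ev f (mob t⁻¹ (mob s⁻¹ none)) = b
  generalize ev f (mob t⁻¹ none) = c
  revert a b c
  decide

theorem act_one (f : V) : act 1 f = f := by
  funext p
  change xor (ev f (mob 1⁻¹ (some p))) (ev f (mob 1⁻¹ none)) = f p
  rw [inv_one, mob_one, mob_one]
  simp [ev]

theorem sg_inv (e : Bool) (s : SL) : (SL.sg e s)⁻¹ = SL.sg e s⁻¹ := by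
  cases e
  · rfl
  · ext <;> rfl

theorem act_sg (e : Bool) (s : SL) (f : V) : act (SL.sg e s) f = act s f := by
  funext p
  simp only [act, sg_inv, mob_sg]

theorem ev_add (f g : V) (q : Option (ZMod 5)) : ev (add f g) q = xor (ev f q) (ev g q) := by
  cases q with
  | none => simp [ev]
  | some p => rfl

theorem act_add (s : SL) (f g : V) : act s (add f g) = add (act s f) (act s g) := by
  funext p
  simp only [act, ev_add, add]
  generalize ev f (mob s⁻¹ (some p)) = a
  generalize ev f (mob s⁻¹ none) = b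
  generalize ev g (mob s⁻¹ (some p)) = c
  generalize ev g (mob s⁻¹ none) = d
  revert a b c d
  decide

theorem add_assoc' (f g h : V) : add (add f g) h = add f (add g h) := by
  funext p; simp [add]

theorem add_self (f : V) : add f f = fun _ => false := by
  funext p; simp [add]

theorem zero_add' (f : V) : add (fun _ => false) f = f := by
  funext p; simp [add]

theorem add_zero' (f : V) : add f (fun _ => false) = f := by
  funext p; simp [add]

theorem add_comm' (f g : V) : add f g = add g f := by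
  funext p; simp [add, Bool.xor_comm]

theorem act_zero (s : SL) : act s (fun _ => false) = fun _ => false := by
  funext p
  have h : ∀ q, ev (fun _ => false) q = false := by intro q; cases q <;> rfl
  simp [act, h]

/-- the central product of `Q₈` and `SL₂(5)`; the element `(e, f, s)` is `iᵉ jᶠ s`. -/
@[ext] structure XX where
  e : Bool
  f : Bool
  s : SL
deriving DecidableEq

namespace XX

/-- the cocycle of `Q₈` -/
def coc (e f e' f' : Bool) : Bool := xor (xor (e && e') (f && f')) (f && e')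

instance : Mul XX := ⟨fun x y => ⟨xor x.e y.e, xor x.f y.f, SL.sg (coc x.e x.f y.e y.f) (x.s * y.s)⟩⟩
instance : One XX := ⟨⟨false, false, 1⟩⟩
instance : Inv XX := ⟨fun x => ⟨x.e, x.f, SL.sg (x.e || x.f) x.s⁻¹⟩⟩

theorem mul_def (x y : XX) : x * y = ⟨xor x.e y.e, xor x.f y.f, SL.sg (coc x.e x.f y.e y.f) (x.s * y.s)⟩ := rfl

theorem mul_assoc' (x y z : XX) : x * y * z = x * (y * z) := by
  simp only [mul_def, SL.sg_mul, SL.mul_sg, SL.sg_sg, mul_assoc, Bool.xor_assoc]
  congr 1
  congr 1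
  generalize x.e = a
  generalize x.f = b
  generalize y.e = c
  generalize y.f = d
  generalize z.e = e
  generalize z.f = f
  revert a b c d e f
  decide

theorem one_mul' (x : XX) : 1 * x = x := by
  have h1 : (1 : XX) = ⟨false, false, 1⟩ := rfl
  rw [mul_def, h1]
  simp [coc, SL.sg]

theorem inv_mul' (x : XX) : x⁻¹ * x = 1 := by
  have h1 : (1 : XX) = ⟨false, false, 1⟩ := rfl
  have h2 : x⁻¹ = ⟨x.e, x.f, SL.sg (x.e || x.f) x.s⁻¹⟩ := rfl
  rw [mul_def, h1, h2]
  simp only [SL.sg_mul, SL.sg_sg, inv_mul_cancel, Bool.xor_self]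
  have h3 : ∀ a b : Bool, xor (coc a b a b) (a || b) = false := by decide
  rw [h3]
  rfl

instance : Group XX := Group.ofLeftAxioms mul_assoc' one_mul' inv_mul'

def equivProd : XX ≃ Bool × Bool × SL where
  toFun x := (x.e, x.f, x.s)
  invFun p := ⟨p.1, p.2.1, p.2.2⟩
  left_inv _ := rfl
  right_inv _ := rfl

instance : Fintype XX := Fintype.ofEquiv _ equivProd.symm

end XX

/-- the group `2^5 : (Q₈ ∘ SL₂(5))` -/
@[ext] structure GG where
  v : V
  x : XX

namespace GG

instance : Mul GG := ⟨fun g h => ⟨add g.v (act g.x.s h.v), g.x * h.x⟩⟩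
instance : One GG := ⟨⟨fun _ => false, 1⟩⟩
instance : Inv GG := ⟨fun g => ⟨act g.x⁻¹.s g.v, g.x⁻¹⟩⟩

theorem mul_def (g h : GG) : g * h = ⟨add g.v (act g.x.s h.v), g.x * h.x⟩ := rfl

theorem act_x (x y : XX) (f : V) : act (x * y).s f = act x.s (act y.s f) := by
  change act (SL.sg _ (x.s * y.s)) f = _
  rw [act_sg, act_mul]

theorem act_x1 (f : V) : act (1 : XX).s f = f := act_one f

theorem mul_assoc' (g h k : GG) : g * h * k = g * (h * k) := by
  simp only [mul_def, act_x, act_add, add_assoc', mul_assoc]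

theorem one_mul' (g : GG) : 1 * g = g := by
  have h1 : (1 : GG) = ⟨fun _ => false, 1⟩ := rfl
  rw [mul_def, h1]
  ext p
  · simp only [act_x1, zero_add']
  · simp
  · simp
  all_goals simp

theorem inv_mul' (g : GG) : g⁻¹ * g = 1 := by
  have h1 : (1 : GG) = ⟨fun _ => false, 1⟩ := rfl
  have h2 : g⁻¹ = ⟨act g.x⁻¹.s g.v, g.x⁻¹⟩ := rfl
  rw [mul_def, h1, h2]
  simp only [add_self, inv_mul_cancel]

instance : Group GG := Group.ofLeftAxioms mul_assoc' one_mul' inv_mul'

def equivProd : GG ≃ V × XX where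
  toFun g := (g.v, g.x)
  invFun p := ⟨p.1, p.2⟩
  left_inv _ := rfl
  right_inv _ := rfl

instance : Fintype GG := Fintype.ofEquiv _ equivProd.symm

end GG

end Pool.Agent.Helper273.FS
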