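import Mathlib
import Pool.Agent.Helper273_FS.Grp

/-! Finite checks in `Q₈ ∘ SL₂(5)`. -/

set_option autoImplicit false
set_option linter.all false
set_option maxRecDepth 100000

namespace Pool.Agent.Helper273.FS

/-- upper unipotent -/
def up (k : ZMod 5) : SL := ⟨1, k, 0, 1, by ring⟩
/-- lower unipotent -/
def lo (k : ZMod 5) : SL := ⟨1, 0, k, 1, by ring⟩

/-- unipotent elements of `Q₈ ∘ SL₂(5)` -/
def T (k : ZMod 5) : XX := ⟨false, false, up k⟩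
def xi : XX := ⟨true, false, 1⟩
def xj : XX := ⟨false, true, 1⟩
def xz : XX := ⟨false, false, SL.sg true 1⟩
/-- `diag(2,3)` -/
def dw : SL := ⟨2, 0, 0, 3, by decide⟩
/-- antidiagonal -/
def dn : SL := ⟨0, 1, -1, 0, by decide⟩
/-- the inverting involution -/
def xu : XX := ⟨false, true, dw⟩
def e1 : XX := ⟨true, false, dw⟩
def e2 : XX := ⟨false, true, dn⟩

/-- the anti-automorphism `y ↦ u y⁻¹ u` -/
def sig (y : XX) : XX := xu * y⁻¹ * xu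

theorem F1a : ∀ e f : Bool, ∀ a b c d : ZMod 5, ∀ h : a * d - b * c = 1,
    (T 1 * ⟨e, f, ⟨a, b, c, d, h⟩⟩ = ⟨e, f, ⟨a, b, c, d, h⟩⟩ * (T 1)⁻¹ ∧
      T 1 * sig ⟨e, f, ⟨a, b, c, d, h⟩⟩ = sig ⟨e, f, ⟨a, b, c, d, h⟩⟩ * (T 1)⁻¹) ∨
    (∃ m : ZMod 5, sig ⟨e, f, ⟨a, b, c, d, h⟩⟩ = T m * ⟨e, f, ⟨a, b, c, d, h⟩⟩ * T (-m)) ∨
    (xi * ⟨e, f, ⟨a, b, c, d, h⟩⟩ = ⟨e, f, ⟨a, b, c, d, h⟩⟩ * xi⁻¹ ∧
      xi * sig ⟨e, f, ⟨a, b, c, d, h⟩⟩ = sig ⟨e, f, ⟨a, b, c, d, h⟩⟩ * xi⁻¹ ∧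
      ∃ m : ZMod 5, sig ⟨e, f, ⟨a, b, c, d, h⟩⟩ = T m * ⟨e, f, ⟨a, b, c, d, h⟩⟩ * (T (-m) * xz)) := by
  decide +kernel

theorem F1 (y : XX) : (T 1 * y = y * (T 1)⁻¹ ∧ T 1 * sig y = sig y * (T 1)⁻¹) ∨
    (∃ m : ZMod 5, sig y = T m * y * T (-m)) ∨
    (xi * y = y * xi⁻¹ ∧ xi * sig y = sig y * xi⁻¹ ∧ ∃ m : ZMod 5, sig y = T m * y * (T (-m) * xz)) :=
  F1a y.e y.f y.s.a y.s.b y.s.c y.s.d y.s.h

theorem gen_aux : ∀ a b c d : ZMod 5, ∀ h : a * d - b * c = 1, ∃ k l m r : ZMod 5,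
    (⟨a, b, c, d, h⟩ : SL) = up k * lo l * up m * lo r := by
  decide +kernel

theorem gen (s : SL) : ∃ k l m r : ZMod 5, s = up k * lo l * up m * lo r :=
  gen_aux s.a s.b s.c s.d s.h

/-- monomial matrices -/
def mono (s : SL) : Bool := (decide (s.b = 0) && decide (s.c = 0)) || (decide (s.a = 0) && decide (s.d = 0))

def mkV (b0 b1 b2 b3 b4 : Bool) : V := fun p => match p with
  | 0 => b0
  | 1 => b1
  | 2 => b2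
  | 3 => b3
  | 4 => b4

theorem mkV_eq (f : V) : f = mkV (f 0) (f 1) (f 2) (f 3) (f 4) := by
  funext p
  fin_cases p <;> rfl

/-- the pairing with the character attached to `t` -/
def dot (t f : V) : Bool := xor (t 0 && f 0) (xor (t 1 && f 1) (xor (t 2 && f 2) (xor (t 3 && f 3) (t 4 && f 4))))

theorem dot_add (t f g : V) : dot t (add f g) = xor (dot t f) (dot t g) := by
  simp only [dot, add, Bool.and_xor_distrib_left]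
  have key : ∀ a0 a1 a2 a3 a4 c0 c1 c2 c3 c4 : Bool,
      (xor (xor a0 c0) (xor (xor a1 c1) (xor (xor a2 c2) (xor (xor a3 c3) (xor a4 c4))))) =
      (xor (xor a0 (xor a1 (xor a2 (xor a3 a4)))) (xor c0 (xor c1 (xor c2 (xor c3 c4))))) := by
    decide
  exact key _ _ _ _ _ _ _ _ _ _

/-- delta function -/
def dl (p : ZMod 5) : V := fun q => decide (p = q)

/-- the two characters with stabiliser of order `32` -/
def tt (k : Bool) : V := mkV (!k) k k k k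

theorem F2a : ∀ k : Bool, ∀ a b c d : ZMod 5, ∀ h : a * d - b * c = 1, mono ⟨a, b, c, d, h⟩ = false →
    ∃ p : ZMod 5, dot (tt k) (act (⟨a, b, c, d, h⟩ : SL)⁻¹ (dl p)) ≠ dot (tt k) (dl p) := by
  decide +kernel

theorem F3a : ∀ k : Bool, ∀ a b c d : ZMod 5, ∀ h : a * d - b * c = 1, mono ⟨a, b, c, d, h⟩ = true →
    ∀ b0 b1 b2 b3 b4 : Bool, dot (tt k) (act (⟨a, b, c, d, h⟩ : SL) (mkV b0 b1 b2 b3 b4)) =
      dot (tt k) (mkV b0 b1 b2 b3 b4) := by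
  decide +kernel

theorem F2 (k : Bool) (s : SL) (h : mono s = false) :
    ∃ p : ZMod 5, dot (tt k) (act s⁻¹ (dl p)) ≠ dot (tt k) (dl p) :=
  F2a k s.a s.b s.c s.d s.h h

theorem F3 (k : Bool) (s : SL) (h : mono s = true) (f : V) : dot (tt k) (act s f) = dot (tt k) f := by
  rw [mkV_eq f]
  exact F3a k s.a s.b s.c s.d s.h h _ _ _ _ _

theorem F4a : ∀ b0 b1 b2 b3 b4 : Bool, ¬ (b0 = b1 ∧ b1 = b2 ∧ b2 = b3 ∧ b3 = b4) →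
    ∃ a b c d : ZMod 5, ∃ h : a * d - b * c = 1, ∃ k : Bool, ∀ p : ZMod 5,
      dot (mkV b0 b1 b2 b3 b4) (act (⟨a, b, c, d, h⟩ : SL)⁻¹ (dl p)) = dot (tt k) (dl p) := by
  decide +kernel

theorem F5a : ∀ a b c d : ZMod 5, ∀ h : a * d - b * c = 1, 
    ∀ b0 b1 b2 b3 b4 : Bool, dot (mkV true true true true true) (act (⟨a, b, c, d, h⟩ : SL) (mkV b0 b1 b2 b3 b4)) =
      dot (mkV true true true true true) (mkV b0 b1 b2 b3 b4) := by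
  decide +kernel

theorem F6a : ∀ e f : Bool, ∀ a b c d : ZMod 5, ∀ h : a * d - b * c = 1, mono ⟨a, b, c, d, h⟩ = true →
    (⟨e, f, ⟨a, b, c, d, h⟩⟩ : XX) * ⟨e, f, ⟨a, b, c, d, h⟩⟩ = 1 ∨
    ((⟨e, f, ⟨a, b, c, d, h⟩⟩ : XX) * ⟨e, f, ⟨a, b, c, d, h⟩⟩ = xz ∧
      (e1 * ⟨e, f, ⟨a, b, c, d, h⟩⟩ = ⟨e, f, ⟨a, b, c, d, h⟩⟩ * (e1 * xz) ∨
       e2 * ⟨e, f, ⟨a, b, c, d, h⟩⟩ = ⟨e, f, ⟨a, b, c, d, h⟩⟩ * (e2 * xz))) := by
  decide +kernel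

theorem F7a : ∀ e f : Bool, ∀ a b c d : ZMod 5, ∀ h : a * d - b * c = 1, mono ⟨a, b, c, d, h⟩ = true →
    ∃ e' f' : Bool, ∃ a' b' c' d' : ZMod 5, ∃ h' : a' * d' - b' * c' = 1, mono ⟨a', b', c', d', h'⟩ = true ∧
      (⟨e', f', ⟨a', b', c', d', h'⟩⟩ : XX) * ⟨e, f, ⟨a, b, c, d, h⟩⟩ =
        (⟨e, f, ⟨a, b, c, d, h⟩⟩ : XX)⁻¹ * ⟨e', f', ⟨a', b', c', d', h'⟩⟩ ∧
      ∀ b0 b1 b2 b3 b4 : Bool, ∃ c0 c1 c2 c3 c4 : Bool,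
        ∀ p : ZMod 5, add (mkV c0 c1 c2 c3 c4) (act (⟨a', b', c', d', h'⟩ : SL) (mkV b0 b1 b2 b3 b4)) p =
        add (act (⟨a, b, c, d, h⟩ : SL)⁻¹ (mkV b0 b1 b2 b3 b4)) (act (⟨a, b, c, d, h⟩ : SL)⁻¹ (mkV c0 c1 c2 c3 c4)) p := by
  decide +kernel

/-- a character with regular orbit -/
def t1 : V := mkV true true false false false

theorem F8a : ∀ a b c d : ZMod 5, ∀ h : a * d - b * c = 1, mono ⟨a, b, c, d, h⟩ = true →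
    (b = 0 ∧ c = 0 ∧ a * a = 1) ∨
    ∃ p : ZMod 5, dot t1 (act (⟨a, b, c, d, h⟩ : SL)⁻¹ (dl p)) ≠ dot t1 (dl p) := by
  decide +kernel

end Pool.Agent.Helper273.FS
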