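import Mathlib

/-! Frobenius–Schur indicators of irreducible complex representations of finite groups. -/

set_option autoImplicit false
set_option linter.all false

open Representation Module

noncomputable section

namespace Pool.Agent.Helper273.FS

variable {G : Type} [Group G] [Fintype G] {W : Type} [AddCommGroup W] [Module ℂ W]

/-- the Frobenius–Schur indicator `(1/|G|) ∑ χ(g²)` of the character `χ` of `ρ` -/
def nu (ρ : Representation ℂ G W) : ℂ := (Nat.card G : ℂ)⁻¹ * ∑ g : G, ρ.character (g ^ 2)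

section basic

variable {ρ : Representation ℂ G W}

/-- an invariant subspace of an irreducible representation which is nonzero is everything -/
theorem irr_top (hρ : ρ.IsIrreducible) (N : Submodule ℂ W) (hN : ∀ g, ∀ w ∈ N, ρ g w ∈ N)
    (h0 : ∃ w ∈ N, w ≠ 0) : N = ⊤ := by
  have h := hρ.eq_bot_or_eq_top (⟨N, fun g w hw => hN g w hw⟩ : Subrepresentation ρ)
  rcases h with h | h
  · exfalso
    obtain ⟨w, hw, hw0⟩ := h0
    have h1 : w ∈ (⟨N, fun g w hw => hN g w hw⟩ : Subrepresentation ρ) := hw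
    rw [h] at h1
    exact hw0 h1
  · have h1 : (⟨N, fun g w hw => hN g w hw⟩ : Subrepresentation ρ).toSubmodule = ⊤ := by rw [h]; rfl
    exact h1

theorem irr_nontriv (hρ : ρ.IsIrreducible) : ∃ w : W, w ≠ 0 := by
  by_contra h
  push Not at h
  have h1 : (⊥ : Subrepresentation ρ) = ⊤ := by
    apply Subrepresentation.toSubmodule_injective
    ext w
    rw [h w]
    simp
  have := hρ.toNontrivial
  exact bot_ne_top h1

variable [FiniteDimensional ℂ W]

theorem schur (hρ : ρ.IsIrreducible) (T : W →ₗ[ℂ] W) (hT : ∀ g w, T (ρ g w) = ρ g (T w)) :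
    ∃ c : ℂ, ∀ w, T w = c • w := by
  obtain ⟨w0, hw0⟩ := irr_nontriv hρ
  haveI : Nontrivial W := ⟨⟨w0, 0, hw0⟩⟩
  obtain ⟨c, hc⟩ := Module.End.exists_eigenvalue T
  refine ⟨c, fun w => ?_⟩
  have h := irr_top hρ (Module.End.eigenspace T c) ?_ ?_
  · have : w ∈ Module.End.eigenspace T c := by rw [h]; trivial
    exact Module.End.mem_eigenspace_iff.1 this
  · intro g w hw
    rw [Module.End.mem_eigenspace_iff] at hw ⊢
    rw [hT, hw, map_smul]
  · obtain ⟨v, hv⟩ := hc.exists_hasEigenvector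
    exact ⟨v, hv.1, hv.2⟩

theorem avg_scalar (hρ : ρ.IsIrreducible) (T : W →ₗ[ℂ] W) (w : W) :
    ∑ g : G, ρ g (T (ρ g⁻¹ w)) = ((Nat.card G : ℂ) * LinearMap.trace ℂ W T / (finrank ℂ W : ℂ)) • w := by
  let A : W →ₗ[ℂ] W := ∑ g : G, (ρ g ∘ₗ T ∘ₗ ρ g⁻¹)
  have hA : ∀ w, A w = ∑ g : G, ρ g (T (ρ g⁻¹ w)) := by
    intro w
    simp [A, LinearMap.sum_apply]
  obtain ⟨c, hc⟩ := schur hρ A (by
    intro x w
    rw [hA, hA, map_sum]
    refine Fintype.sum_equiv (Equiv.mulLeft x⁻¹) _ _ ?_
    intro g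
    rw [Equiv.coe_mulLeft, ← Module.End.mul_apply (ρ x), ← map_mul, mul_inv_cancel_left,
      mul_inv_rev, inv_inv, map_mul ρ g⁻¹ x, Module.End.mul_apply])
  obtain ⟨w0, hw0⟩ := irr_nontriv hρ
  haveI : Nontrivial W := ⟨⟨w0, 0, hw0⟩⟩
  have hd : (finrank ℂ W : ℂ) ≠ 0 := by
    have := finrank_pos (R := ℂ) (M := W)
    exact_mod_cast this.ne'
  have htr : LinearMap.trace ℂ W A = (Nat.card G : ℂ) * LinearMap.trace ℂ W T := by
    simp only [A, map_sum]
    have h1 : ∀ g : G, LinearMap.trace ℂ W (ρ g ∘ₗ T ∘ₗ ρ g⁻¹) = LinearMap.trace ℂ W T := by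
      intro g
      have h2 : (ρ g ∘ₗ T ∘ₗ ρ g⁻¹) = (ρ g) * (T * ρ g⁻¹) := rfl
      rw [h2, LinearMap.trace_mul_comm, mul_assoc, ← map_mul, inv_mul_cancel, map_one, mul_one]
    simp_rw [h1]
    simp
  have htr2 : LinearMap.trace ℂ W A = c * finrank ℂ W := by
    have h2 : A = c • LinearMap.id := by
      ext w
      rw [hc]; rfl
    rw [h2, map_smul, LinearMap.trace_id, smul_eq_mul]
  rw [← hA, hc]
  congr 1
  rw [← htr, htr2]
  field_simp

/-- A nonzero invariant bilinear form which is `ε`-symmetric forces the indicator to be `ε`. -/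
theorem nu_of_form (hρ : ρ.IsIrreducible) (B : W →ₗ[ℂ] W →ₗ[ℂ] ℂ) (hB0 : B ≠ 0)
    (hB : ∀ g v w, B (ρ g v) (ρ g w) = B v w) (ε : ℂ) (hε : ∀ v w, B w v = ε * B v w) : nu ρ = ε := by
  obtain ⟨w0, hw0⟩ := irr_nontriv hρ
  haveI : Nontrivial W := ⟨⟨w0, 0, hw0⟩⟩
  have hd : (finrank ℂ W : ℂ) ≠ 0 := by
    have := finrank_pos (R := ℂ) (M := W)
    exact_mod_cast this.ne'
  have hinj : Function.Injective B := by
    rw [← LinearMap.ker_eq_bot]
    by_contra hne
    have h1 := irr_top hρ (LinearMap.ker B) (by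
      intro g w hw
      rw [LinearMap.mem_ker] at hw ⊢
      ext v
      have h2 := hB g w (ρ g⁻¹ v)
      rw [← Module.End.mul_apply, ← map_mul, mul_inv_cancel, map_one, Module.End.one_apply] at h2
      rw [h2, hw]
      rfl) ((Submodule.ne_bot_iff _).1 hne)
    apply hB0
    rwa [LinearMap.ker_eq_top] at h1
  have hsurj : Function.Surjective B :=
    (LinearMap.injective_iff_surjective_of_finrank_eq_finrank (Subspace.dual_finrank_eq (K := ℂ) (V := W)).symm).1 hinj
  let b := finBasis ℂ W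
  choose c hc using fun j => hsurj (b.coord j)
  have hexp : ∀ w, w = ∑ j, B w (b j) • c j := by
    intro w
    apply hinj
    apply b.ext
    intro k
    rw [map_sum, LinearMap.sum_apply]
    simp_rw [map_smul, LinearMap.smul_apply, hc]
    simp [Finsupp.single_apply]
  have hadj : ∀ g v w, B (ρ g v) w = B v (ρ g⁻¹ w) := by
    intro g v w
    have h2 := hB g v (ρ g⁻¹ w)
    rwa [← Module.End.mul_apply, ← map_mul, mul_inv_cancel, map_one, Module.End.one_apply] at h2
  have htr : ∀ g : G, ρ.character (g ^ 2) = ∑ i, ∑ j, B (b i) (ρ g⁻¹ (b j)) * b.coord i (ρ g (c j)) := by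
    intro g
    rw [Representation.character, LinearMap.trace_eq_matrix_trace ℂ b, Matrix.trace]
    refine Finset.sum_congr rfl fun i _ => ?_
    rw [Matrix.diag_apply, LinearMap.toMatrix_apply, sq, map_mul, Module.End.mul_apply]
    conv_lhs => rw [hexp (ρ g (b i))]
    rw [map_sum, map_sum, Finsupp.finset_sum_apply]
    refine Finset.sum_congr rfl fun j _ => ?_
    rw [map_smul, map_smul, hadj]
    rfl
  unfold nu
  simp_rw [htr]
  rw [Finset.sum_comm]
  have hij : ∀ i, ∑ g : G, ∑ j, B (b i) (ρ g⁻¹ (b j)) * b.coord i (ρ g (c j)) =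
      (Nat.card G : ℂ) * ε / finrank ℂ W := by
    intro i
    rw [Finset.sum_comm]
    have hj : ∀ j, ∑ g : G, B (b i) (ρ g⁻¹ (b j)) * b.coord i (ρ g (c j)) =
        ((Nat.card G : ℂ) * B (b i) (c j) / finrank ℂ W) * (b.coord i (b j)) := by
      intro j
      have h1 := congrArg (b.coord i) (avg_scalar hρ ((B (b i)).smulRight (c j)) (b j))
      rw [map_sum] at h1
      simp only [LinearMap.smulRight_apply, map_smul, smul_eq_mul] at h1
      rw [h1]
      congr 2
      rw [LinearMap.trace_smulRight]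
    simp_rw [hj]
    rw [Finset.sum_eq_single i]
    · rw [hε (c i) (b i), hc]
      simp
    · intro j _ hji
      simp [Finsupp.single_apply, hji]
    · intro h; exact absurd (Finset.mem_univ i) h
  simp_rw [hij]
  have hG : (Nat.card G : ℂ) ≠ 0 := by
    have : Nat.card G ≠ 0 := Nat.card_pos.ne'
    exact_mod_cast this
  rw [Finset.sum_const, Finset.card_univ, Fintype.card_fin, nsmul_eq_mul]
  field_simp

end basic

end Pool.Agent.Helper273.FS
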