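import Mathlib
import Pool.Agent.Helper273_FS.Gen

/-! Criteria for the Frobenius–Schur indicator. -/

set_option autoImplicit false
set_option linter.all false

open Representation Module

noncomputable section

namespace Pool.Agent.Helper273.FS

variable {G : Type} [Group G] [Fintype G] {W : Type} [AddCommGroup W] [Module ℂ W]
variable {ρ : Representation ℂ G W} [FiniteDimensional ℂ W]

theorem rho_mul (g h : G) (w : W) : ρ (g * h) w = ρ g (ρ h w) := by
  rw [map_mul]; rfl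

theorem rho_one (w : W) : ρ 1 w = w := by
  rw [map_one]; rfl

/-- a matrix coefficient with `φ(x⁻¹) = ε φ(x)` -/
theorem nu_of_coeff (hρ : ρ.IsIrreducible) (v0 : W) (f : W →ₗ[ℂ] ℂ) (ε : ℂ)
    (hf : ∀ x : G, f (ρ x⁻¹ v0) = ε * f (ρ x v0)) (x0 : G) (hx0 : f (ρ x0 v0) ≠ 0) : nu ρ = ε := by
  classical
  let Φ : (G → ℂ) →ₗ[ℂ] W := ∑ g : G, (LinearMap.proj g).smulRight (ρ g v0)
  have hΦ : ∀ a, Φ a = ∑ g : G, a g • ρ g v0 := by
    intro a
    simp [Φ, LinearMap.sum_apply]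
  have hrange : LinearMap.range Φ = ⊤ := by
    apply irr_top hρ
    · rintro g w ⟨a, rfl⟩
      refine ⟨fun x => a (g⁻¹ * x), ?_⟩
      rw [hΦ, hΦ, map_sum]
      symm
      refine Fintype.sum_equiv (Equiv.mulLeft g) _ _ ?_
      intro x
      rw [Equiv.coe_mulLeft, inv_mul_cancel_left, map_smul, rho_mul]
    · refine ⟨v0, ⟨Pi.single 1 1, ?_⟩, ?_⟩
      · rw [hΦ, Finset.sum_eq_single 1]
        · rw [Pi.single_eq_same, one_smul, rho_one]
        · intro b _ hb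
          rw [Pi.single_eq_of_ne hb, zero_smul]
        · intro h; exact absurd (Finset.mem_univ _) h
      · rintro rfl
        apply hx0
        simp
  obtain ⟨s, hs⟩ := LinearMap.exists_rightInverse_of_surjective Φ hrange
  have hs' : ∀ w, w = ∑ g : G, s w g • ρ g v0 := by
    intro w
    rw [← hΦ]
    exact (LinearMap.congr_fun hs w).symm
  let B : W →ₗ[ℂ] W →ₗ[ℂ] ℂ := ∑ g : G, ((LinearMap.proj g).comp s).smulRight (f ∘ₗ ρ g⁻¹)
  have hB : ∀ v w, B v w = ∑ g : G, s v g * f (ρ g⁻¹ w) := by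
    intro v w
    simp [B, LinearMap.sum_apply]
  have hB2 : ∀ v w, B v w = ∑ g : G, ∑ h : G, s v g * (s w h * f (ρ (g⁻¹ * h) v0)) := by
    intro v w
    rw [hB]
    refine Finset.sum_congr rfl fun g _ => ?_
    conv_lhs => rw [hs' w]
    rw [map_sum, map_sum, Finset.mul_sum]
    refine Finset.sum_congr rfl fun h _ => ?_
    rw [map_smul, map_smul, smul_eq_mul, rho_mul]
  have hsym : ∀ v w, B v w = ε * B w v := by
    intro v w
    rw [hB2, hB2, Finset.sum_comm, Finset.mul_sum]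
    refine Finset.sum_congr rfl fun h _ => ?_
    rw [Finset.mul_sum]
    refine Finset.sum_congr rfl fun g _ => ?_
    have h1 := hf (h⁻¹ * g)
    rw [mul_inv_rev, inv_inv] at h1
    rw [h1]
    ring
  have hleft : ∀ (x : G) w, B (ρ x v0) w = f (ρ x⁻¹ w) := by
    intro x w
    rw [hsym, hB]
    have h2 : ρ x⁻¹ w = ∑ h : G, s w h • ρ (x⁻¹ * h) v0 := by
      conv_lhs => rw [hs' w]
      rw [map_sum]
      refine Finset.sum_congr rfl fun h _ => ?_
      rw [map_smul, rho_mul]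
    rw [h2, map_sum, Finset.mul_sum]
    refine Finset.sum_congr rfl fun h _ => ?_
    have h1 := hf (h⁻¹ * x)
    rw [mul_inv_rev, inv_inv] at h1
    rw [map_smul, smul_eq_mul, h1, ← rho_mul]
    ring
  refine nu_of_form hρ B ?_ ?_ ε (fun v w => hsym w v)
  · intro h0
    apply hx0
    have := hleft x0⁻¹ v0
    rw [h0, inv_inv] at this
    exact this.symm
  · intro g v w
    rw [hs' v]
    rw [map_sum, map_sum, map_sum, LinearMap.sum_apply, LinearMap.sum_apply]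
    refine Finset.sum_congr rfl fun x _ => ?_
    rw [map_smul, map_smul, map_smul, LinearMap.smul_apply, LinearMap.smul_apply, ← rho_mul, hleft,
      hleft, ← rho_mul, mul_inv_rev, inv_mul_cancel_right]

/-- a functional which transforms like `v0` under the stabiliser of the line of `v0` -/
theorem exists_ell (ρ : Representation ℂ G W) (v0 : W) (hv0 : v0 ≠ 0) :
    ∃ ℓ : W →ₗ[ℂ] ℂ, ℓ v0 = 1 ∧ ∀ (g : G) (c : ℂ), ρ g v0 = c • v0 → ∀ w, ℓ (ρ g w) = c * ℓ w := by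
  classical
  obtain ⟨l0, hl0⟩ : ∃ l : Module.Dual ℂ W, l v0 = 1 := by
    obtain ⟨l, h1⟩ : ∃ l : Module.Dual ℂ W, l v0 ≠ 0 := by
      by_contra hcon
      push Not at hcon
      exact hv0 ((Module.forall_dual_apply_eq_zero_iff ℂ v0).1 hcon)
    exact ⟨(l v0)⁻¹ • l, by simp [h1]⟩
  let L : Finset G := Finset.univ.filter (fun g => ∃ c : ℂ, ρ g v0 = c • v0)
  have hL1 : (1 : G) ∈ L := by
    rw [Finset.mem_filter]
    exact ⟨Finset.mem_univ _, 1, by rw [rho_one, one_smul]⟩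
  have hcard : (L.card : ℂ) ≠ 0 := by
    have : 0 < L.card := Finset.card_pos.2 ⟨1, hL1⟩
    exact_mod_cast this.ne'
  have hval : ∀ g c, ρ g v0 = c • v0 → l0 (ρ g v0) = c ∧ c ≠ 0 := by
    intro g c h
    refine ⟨by rw [h, map_smul, hl0, smul_eq_mul, mul_one], ?_⟩
    rintro rfl
    rw [zero_smul] at h
    apply hv0
    have h2 := congrArg (ρ g⁻¹) h
    rwa [← rho_mul, inv_mul_cancel, rho_one, map_zero] at h2
  let ℓ : W →ₗ[ℂ] ℂ := (L.card : ℂ)⁻¹ • ∑ h ∈ L, (l0 (ρ h v0))⁻¹ • (l0 ∘ₗ ρ h)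
  have hℓ : ∀ w, ℓ w = (L.card : ℂ)⁻¹ * ∑ h ∈ L, (l0 (ρ h v0))⁻¹ * l0 (ρ h w) := by
    intro w
    simp [ℓ, LinearMap.sum_apply]
  refine ⟨ℓ, ?_, ?_⟩
  · rw [hℓ]
    have h1 : ∀ h ∈ L, (l0 (ρ h v0))⁻¹ * l0 (ρ h v0) = 1 := by
      intro h hh
      obtain ⟨c, hc⟩ := (Finset.mem_filter.1 hh).2
      obtain ⟨h2, h3⟩ := hval h c hc
      rw [h2, inv_mul_cancel₀ h3]
    rw [Finset.sum_congr rfl h1]
    simp [hcard]
  · intro g c hg w
    obtain ⟨h2, h3⟩ := hval g c hg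
    rw [hℓ, hℓ, mul_left_comm c]
    congr 1
    rw [Finset.mul_sum]
    refine Finset.sum_bij (fun h _ => h * g) ?_ ?_ ?_ ?_
    · intro h hh
      obtain ⟨c', hc'⟩ := (Finset.mem_filter.1 hh).2
      rw [Finset.mem_filter]
      refine ⟨Finset.mem_univ _, c * c', ?_⟩
      rw [rho_mul, hg, map_smul, hc', smul_smul]
    · intro a _ b _ hab
      exact mul_right_cancel hab
    · intro b hb
      obtain ⟨c', hc'⟩ := (Finset.mem_filter.1 hb).2
      refine ⟨b * g⁻¹, ?_, by group⟩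
      rw [Finset.mem_filter]
      refine ⟨Finset.mem_univ _, c⁻¹ * c', ?_⟩
      have h5 : ρ g⁻¹ v0 = c⁻¹ • v0 := by
        have h6 := congrArg (ρ g⁻¹) hg
        rw [← rho_mul, inv_mul_cancel, rho_one, map_smul] at h6
        conv_rhs => rw [h6]
        rw [smul_smul, inv_mul_cancel₀ h3, one_smul]
      rw [rho_mul, h5, map_smul, hc', smul_smul]
    · intro h hh
      obtain ⟨c', hc'⟩ := (Finset.mem_filter.1 hh).2
      obtain ⟨h6, h7⟩ := hval h c' hc'
      have h8 : l0 (ρ (h * g) v0) = c * l0 (ρ h v0) := by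
        rw [rho_mul, hg, map_smul, map_smul, smul_eq_mul]
      rw [h8, rho_mul, h6]
      field_simp

/-- `ρ h` fixes the line of `v0` -/
def Eig (ρ : Representation ℂ G W) (v0 : W) (h : G) (c : ℂ) : Prop := ρ h v0 = c • v0

/-- `y` is of vanishing type -/
def Zt (ρ : Representation ℂ G W) (v0 : W) (y : G) : Prop :=
  ∃ h h' : G, ∃ c c' : ℂ, Eig ρ v0 h c ∧ Eig ρ v0 h' c' ∧ c ≠ c' ∧ ρ (h * y) v0 = ρ (y * h') v0

theorem nu_of_crit (hρ : ρ.IsIrreducible) (v0 : W) (hv0 : v0 ≠ 0) (u : G) (ε : ℂ)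
    (hcr : ∀ x : G, (Zt ρ v0 (u * x) ∧ Zt ρ v0 (u * x⁻¹)) ∨
      ∃ h h' : G, ∃ c c' : ℂ, Eig ρ v0 h c ∧ Eig ρ v0 h' c' ∧ c * c' = ε ∧
        ρ (u * x⁻¹) v0 = ρ (h * (u * x) * h') v0) : nu ρ = ε := by
  obtain ⟨ℓ, hℓ1, hℓ⟩ := exists_ell ρ v0 hv0
  have hz : ∀ y, Zt ρ v0 y → ℓ (ρ y v0) = 0 := by
    rintro y ⟨h, h', c, c', e1, e2, hne, hy⟩
    have h1 := hℓ h c e1 (ρ y v0)
    rw [← rho_mul, hy, rho_mul, e2, map_smul, map_smul, smul_eq_mul] at h1
    have h2 : (c' - c) * ℓ (ρ y v0) = 0 := by linear_combination h1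
    exact (mul_eq_zero.1 h2).resolve_left (sub_ne_zero.2 (Ne.symm hne))
  refine nu_of_coeff hρ v0 (ℓ ∘ₗ ρ u) ε ?_ u⁻¹ ?_
  · intro x
    rw [LinearMap.comp_apply, LinearMap.comp_apply, ← rho_mul, ← rho_mul]
    rcases hcr x with ⟨h1, h2⟩ | ⟨h, h', c, c', e1, e2, hcc, h3⟩
    · rw [hz _ h1, hz _ h2, mul_zero]
    · rw [h3, rho_mul, rho_mul, e2, map_smul, map_smul, map_smul, smul_eq_mul, hℓ h c e1, ← hcc]
      ring
  · rw [LinearMap.comp_apply, ← rho_mul, mul_inv_cancel, rho_one, hℓ1]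
    exact one_ne_zero

/-- commuting involutions have a common eigenvector in an invariant subspace -/
theorem common_eig (l : List (Module.End ℂ W)) (N : Submodule ℂ W) (hN : ∃ w ∈ N, w ≠ 0)
    (h2 : ∀ a ∈ l, ∀ w ∈ N, a (a w) = w) (hc : ∀ a ∈ l, ∀ b ∈ l, ∀ w ∈ N, a (b w) = b (a w))
    (hi : ∀ a ∈ l, ∀ w ∈ N, a w ∈ N) :
    ∃ w ∈ N, w ≠ 0 ∧ ∀ a ∈ l, ∃ c : ℂ, (c = 1 ∨ c = -1) ∧ a w = c • w := by
  induction l with
  | nil =>
    obtain ⟨w, hw, h0⟩ := hN
    exact ⟨w, hw, h0, by simp⟩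
  | cons a l ih =>
    obtain ⟨w, hw, h0, hl⟩ := ih (fun b hb => h2 b (List.mem_cons_of_mem _ hb))
      (fun b hb b' hb' => hc b (List.mem_cons_of_mem _ hb) b' (List.mem_cons_of_mem _ hb'))
      (fun b hb => hi b (List.mem_cons_of_mem _ hb))
    have hex : ∃ c : ℂ, (c = 1 ∨ c = -1) ∧ w + c • a w ≠ 0 := by
      by_contra hcon
      push Not at hcon
      have e1 := hcon 1 (Or.inl rfl)
      have e2 := hcon (-1) (Or.inr rfl)
      apply h0
      have h3 : (2 : ℂ) • w = 0 := by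
        have : (2 : ℂ) • w = (w + (1 : ℂ) • a w) + (w + (-1 : ℂ) • a w) := by
          module
        rw [this, e1, e2, add_zero]
      exact (smul_eq_zero.1 h3).resolve_left two_ne_zero
    obtain ⟨c, hc1, hcne⟩ := hex
    have haN := hi a List.mem_cons_self w hw
    have hcc : c * c = 1 := by rcases hc1 with rfl | rfl <;> ring
    refine ⟨w + c • a w, N.add_mem hw (N.smul_mem _ haN), hcne, ?_⟩
    intro b hb
    rcases List.mem_cons.1 hb with rfl | hb'
    · refine ⟨c, hc1, ?_⟩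
      rw [map_add, map_smul, h2 b List.mem_cons_self w hw, smul_add, smul_smul, hcc, one_smul, add_comm]
    · obtain ⟨d, hd1, hd⟩ := hl b hb'
      refine ⟨d, hd1, ?_⟩
      rw [map_add, map_smul, hc b hb a List.mem_cons_self w hw, hd, map_smul, smul_add, smul_comm]

end Pool.Agent.Helper273.FS
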