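import Mathlib
import Pool.Agent.Helper273_FS.Gen2

/-! Characters of finite groups: `χ(g⁻¹)` is the complex conjugate of `χ(g)`, and existence of irreducible
representations with a prescribed eigenvector. -/

set_option autoImplicit false
set_option linter.all false

open Representation Module

noncomputable section

namespace Pool.Agent.Helper273.FS

variable {G : Type} [Group G] [Fintype G]

section cj

variable {W : Type} [AddCommGroup W] [Module ℂ W] [FiniteDimensional ℂ W]

open scoped ComplexConjugate Matrix ComplexOrder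

theorem char_inv (ρ : Representation ℂ G W) (g : G) : ρ.character g⁻¹ = conj (ρ.character g) := by
  classical
  let b := finBasis ℂ W
  let R : G → Matrix (Fin (finrank ℂ W)) (Fin (finrank ℂ W)) ℂ := fun g => LinearMap.toMatrix b b (ρ g)
  have hRmul : ∀ g h, R (g * h) = R g * R h := by
    intro g h
    simp only [R]
    rw [map_mul, ← LinearMap.toMatrix_mul]
  have hR1 : R 1 = 1 := by
    simp only [R]
    rw [map_one]
    exact LinearMap.toMatrix_one b
  have hch : ∀ g, ρ.character g = (R g).trace := by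
    intro g
    rw [Representation.character, LinearMap.trace_eq_matrix_trace ℂ b]
  let H : Matrix (Fin (finrank ℂ W)) (Fin (finrank ℂ W)) ℂ := ∑ g : G, (R g)ᴴ * R g
  have hH : ∀ h, (R h)ᴴ * H * R h = H := by
    intro h
    simp only [H]
    rw [Finset.mul_sum, Finset.sum_mul]
    refine Fintype.sum_equiv (Equiv.mulRight h) _ _ ?_
    intro g
    rw [Equiv.coe_mulRight, hRmul, Matrix.conjTranspose_mul]
    simp only [Matrix.mul_assoc]
  have hpos : H.PosDef := by
    have h1 : H = 1 + ∑ g ∈ Finset.univ.erase (1 : G), (R g)ᴴ * R g := by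
      simp only [H]
      rw [← Finset.add_sum_erase _ _ (Finset.mem_univ (1 : G)), hR1]
      simp
    rw [h1]
    exact Matrix.PosDef.one.add_posSemidef (Matrix.posSemidef_sum _ fun g _ => Matrix.posSemidef_conjTranspose_mul_self _)
  have hunit := hpos.isUnit
  have hdet : IsUnit H.det := (Matrix.isUnit_iff_isUnit_det _).1 hunit
  have h1 : (R g)ᴴ * H = H * R g⁻¹ := by
    have h2 := hH g
    have h3 : R g * R g⁻¹ = 1 := by rw [← hRmul, mul_inv_cancel, hR1]
    calc (R g)ᴴ * H = (R g)ᴴ * H * (R g * R g⁻¹) := by rw [h3, Matrix.mul_one]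
      _ = ((R g)ᴴ * H * R g) * R g⁻¹ := by rw [Matrix.mul_assoc _ (R g)]
      _ = H * R g⁻¹ := by rw [h2]
  have h2 : R g⁻¹ = H⁻¹ * ((R g)ᴴ * H) := by
    rw [h1, ← Matrix.mul_assoc, Matrix.nonsing_inv_mul _ hdet, Matrix.one_mul]
  rw [hch, hch, h2, Matrix.trace_mul_comm, Matrix.mul_assoc, Matrix.mul_nonsing_inv _ hdet, Matrix.mul_one,
    Matrix.trace_conjTranspose]
  rfl

theorem char_real (ρ : Representation ℂ G W) (g : G) (h : ∃ x : G, x * g = g⁻¹ * x) : (ρ.character g).im = 0 := by
  obtain ⟨x, hx⟩ := h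
  have h1 : g⁻¹ = x * g * x⁻¹ := by rw [hx, mul_inv_cancel_right]
  have h2 := char_inv ρ g
  rw [h1, Representation.char_conj] at h2
  exact Complex.conj_eq_iff_im.1 h2.symm

end cj

section ex

variable {U : Type} [AddCommGroup U] [Module ℂ U]

open scoped MonoidAlgebra

set_option backward.isDefEq.respectTransparency false in
theorem of_module (Q : Type) [AddCommGroup Q] [Module (MonoidAlgebra ℂ G) Q]
    (hs : IsSimpleModule (MonoidAlgebra ℂ G) Q) (q1 : Q) (hq1 : q1 ≠ 0) :
    ∃ (W : Type) (_ : AddCommGroup W) (_ : Module ℂ W) (_ : FiniteDimensional ℂ W) (ρ : Representation ℂ G W),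
      ρ.IsIrreducible ∧ ∃ v0 : W, v0 ≠ 0 ∧ ∀ (h : G) (c : ℂ),
        (MonoidAlgebra.single h 1 - MonoidAlgebra.single 1 c : MonoidAlgebra ℂ G) • q1 = 0 → ρ h v0 = c • v0 := by
  have hirr := (Representation.isSimpleModule_iff_irreducible_ofModule (k := ℂ) (G := G) Q).1 hs
  refine ⟨RestrictScalars ℂ (MonoidAlgebra ℂ G) Q, inferInstance, inferInstance, ?_,
    Representation.ofModule Q, hirr, (RestrictScalars.addEquiv ℂ (MonoidAlgebra ℂ G) Q).symm q1, ?_, ?_⟩
  · -- finite dimensional
    haveI : Module.Finite ℂ (MonoidAlgebra ℂ G) := inferInstance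
    let φ : MonoidAlgebra ℂ G →ₗ[ℂ] RestrictScalars ℂ (MonoidAlgebra ℂ G) Q :=
      { toFun := fun a => (RestrictScalars.addEquiv ℂ (MonoidAlgebra ℂ G) Q).symm (a • q1)
        map_add' := by
          intro a b
          rw [add_smul, map_add]
        map_smul' := by
          intro c a
          rw [RingHom.id_apply, RestrictScalars.addEquiv_symm_map_smul_smul] }
    refine Module.Finite.of_surjective φ ?_
    intro x
    obtain ⟨a, ha⟩ := IsSimpleModule.toSpanSingleton_surjective (MonoidAlgebra ℂ G) hq1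
      ((RestrictScalars.addEquiv ℂ (MonoidAlgebra ℂ G) Q) x)
    refine ⟨a, ?_⟩
    change (RestrictScalars.addEquiv ℂ (MonoidAlgebra ℂ G) Q).symm (a • q1) = x
    rw [← LinearMap.toSpanSingleton_apply, ha, AddEquiv.symm_apply_apply]
  · intro h
    exact hq1 (by simpa using h)
  · intro h c hc
    have h1 := Representation.ofModule_asAlgebraHom_apply_apply (k := ℂ) (G := G) Q
      (MonoidAlgebra.single h 1 - MonoidAlgebra.single 1 c) ((RestrictScalars.addEquiv ℂ (MonoidAlgebra ℂ G) Q).symm q1)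
    rw [AddEquiv.apply_symm_apply, hc, map_zero, map_sub, LinearMap.sub_apply, asAlgebraHom_single,
      asAlgebraHom_single, sub_eq_zero] at h1
    simpa using h1

/-- an irreducible representation with an eigenvector of prescribed type -/
theorem exists_irr (R : Representation ℂ G U) (f0 : U) (hf0 : f0 ≠ 0) :
    ∃ (W : Type) (_ : AddCommGroup W) (_ : Module ℂ W) (_ : FiniteDimensional ℂ W) (ρ : Representation ℂ G W),
      ρ.IsIrreducible ∧ ∃ v0 : W, v0 ≠ 0 ∧ ∀ (h : G) (c : ℂ), R h f0 = c • f0 → ρ h v0 = c • v0 := by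
  let L : Ideal (MonoidAlgebra ℂ G) :=
    { carrier := {a | R.asAlgebraHom a f0 = 0}
      add_mem' := by
        intro a b ha hb
        change R.asAlgebraHom (a + b) f0 = 0
        rw [map_add, LinearMap.add_apply, ha, hb, add_zero]
      zero_mem' := by
        change R.asAlgebraHom 0 f0 = 0
        rw [map_zero, LinearMap.zero_apply]
      smul_mem' := by
        intro c a ha
        change R.asAlgebraHom (c * a) f0 = 0
        rw [map_mul, Module.End.mul_apply, ha, map_zero] }
  have hL : L ≠ ⊤ := by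
    intro h
    have h1 : (1 : MonoidAlgebra ℂ G) ∈ L := by rw [h]; trivial
    have h2 : R.asAlgebraHom 1 f0 = 0 := h1
    rw [map_one, Module.End.one_apply] at h2
    exact hf0 h2
  obtain ⟨M, hM, hLM⟩ := Ideal.exists_le_maximal L hL
  have hsimp : IsSimpleModule (MonoidAlgebra ℂ G) (MonoidAlgebra ℂ G ⧸ M) :=
    isSimpleModule_iff_quot_maximal.2 ⟨M, hM, ⟨LinearEquiv.refl _ _⟩⟩
  have hq0 : M.mkQ 1 ≠ 0 := by
    intro h
    rw [Submodule.mkQ_apply, Submodule.Quotient.mk_eq_zero] at h
    exact hM.ne_top ((Ideal.eq_top_iff_one _).2 h)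
  obtain ⟨W, i1, i2, i3, ρ, hρ, v0, hv0, hv⟩ := of_module (MonoidAlgebra ℂ G ⧸ M) hsimp (M.mkQ 1) hq0
  refine ⟨W, i1, i2, i3, ρ, hρ, v0, hv0, fun h c hc => hv h c ?_⟩
  rw [← map_smul, smul_eq_mul, mul_one, Submodule.mkQ_apply, Submodule.Quotient.mk_eq_zero]
  apply hLM
  change R.asAlgebraHom (MonoidAlgebra.single h 1 - MonoidAlgebra.single 1 c) f0 = 0
  rw [map_sub, LinearMap.sub_apply, asAlgebraHom_single, asAlgebraHom_single]
  simp [hc]

end ex

end Pool.Agent.Helper273.FS
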