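import Mathlib
import Pool.Agent.Helper273_FS.Gen2
import Pool.Agent.Helper273_FS.Chk

/-! Every irreducible character of `2^5 : (Q₈ ∘ SL₂(5))` has indicator `1`. -/

set_option autoImplicit false
set_option linter.all false
set_option maxRecDepth 100000

open Representation Module

noncomputable section

namespace Pool.Agent.Helper273.FS

def zeroV : V := fun _ => false
def iV (f : V) : GG := ⟨f, 1⟩
def iX (x : XX) : GG := ⟨zeroV, x⟩

theorem iV_iX (f : V) (x : XX) : iV f * iX x = ⟨f, x⟩ := by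
  rw [GG.mul_def]
  change (⟨add f (act (1 : XX).s (fun _ => false)), 1 * x⟩ : GG) = ⟨f, x⟩
  rw [GG.act_x1, add_zero', one_mul]

theorem iX_iV (f : V) (x : XX) : iX x * iV f = ⟨act x.s f, x⟩ := by
  rw [GG.mul_def]
  change (⟨add (fun _ => false) (act x.s f), x * 1⟩ : GG) = _
  rw [zero_add', mul_one]

theorem iV_mul (f g : V) : iV f * iV g = iV (add f g) := by
  rw [GG.mul_def]
  change (⟨add f (act (1 : XX).s g), 1 * 1⟩ : GG) = ⟨add f g, 1⟩
  rw [GG.act_x1, one_mul]

theorem iX_mul (x y : XX) : iX x * iX y = iX (x * y) := by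
  rw [GG.mul_def]
  change (⟨add (fun _ => false) (act x.s (fun _ => false)), x * y⟩ : GG) = ⟨fun _ => false, x * y⟩
  rw [act_zero, zero_add']

theorem iV_zero : iV zeroV = 1 := rfl
theorem iX_one : iX 1 = 1 := rfl

theorem iX_inv (x : XX) : (iX x)⁻¹ = iX x⁻¹ := by
  rw [inv_eq_iff_mul_eq_one, iX_mul, mul_inv_cancel, iX_one]

/-- sign of a bit -/
def sgn (b : Bool) : ℂ := if b then -1 else 1

theorem sgn_xor (a b : Bool) : sgn (xor a b) = sgn a * sgn b := by
  cases a <;> cases b <;> simp [sgn]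

theorem sgn_mul_self (a : Bool) : sgn a * sgn a = 1 := by
  cases a <;> simp [sgn]

theorem sgn_ne {a b : Bool} (h : a ≠ b) : sgn a ≠ sgn b := by
  cases a <;> cases b <;> simp_all [sgn] <;> norm_num

theorem V_ind (P : V → Prop) (h0 : P zeroV) (ha : ∀ f g, P f → P g → P (add f g)) (hd : ∀ p, P (dl p)) (f : V) :
    P f := by
  have h : ∀ b0 b1 b2 b3 b4 : Bool, mkV b0 b1 b2 b3 b4 =
      add (if b0 then dl 0 else zeroV) (add (if b1 then dl 1 else zeroV) (add (if b2 then dl 2 else zeroV)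
        (add (if b3 then dl 3 else zeroV) (if b4 then dl 4 else zeroV)))) := by
    decide +kernel
  rw [mkV_eq f, h]
  have h1 : ∀ (b : Bool) (p : ZMod 5), P (if b then dl p else zeroV) := by
    intro b p
    cases b
    · exact h0
    · exact hd p
  exact ha _ _ (h1 _ _) (ha _ _ (h1 _ _) (ha _ _ (h1 _ _) (ha _ _ (h1 _ _) (h1 _ _))))

variable {W : Type} [AddCommGroup W] [Module ℂ W] {ρ : Representation ℂ GG W}

/-- `V` acts on `w` through the character attached to `t` -/
def VChar (ρ : Representation ℂ GG W) (w : W) (t : V) : Prop := ∀ f, ρ (iV f) w = sgn (dot t f) • w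

theorem dot_zero (t : V) : dot t zeroV = false := by
  simp [dot, zeroV]

theorem dot_dl_aux : ∀ b0 b1 b2 b3 b4 : Bool, ∀ p : ZMod 5,
    dot (mkV b0 b1 b2 b3 b4) (dl p) = mkV b0 b1 b2 b3 b4 p := by
  decide +kernel

theorem dot_dl (t : V) (p : ZMod 5) : dot t (dl p) = t p := by
  rw [mkV_eq t]
  exact dot_dl_aux _ _ _ _ _ p

theorem vchar_of_dl {w : W} {t : V} (h : ∀ p, ρ (iV (dl p)) w = sgn (dot t (dl p)) • w) : VChar ρ w t := by
  intro f
  refine V_ind (fun f => ρ (iV f) w = sgn (dot t f) • w) ?_ ?_ h f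
  · change ρ (iV zeroV) w = sgn (dot t zeroV) • w
    rw [iV_zero, map_one, dot_zero]
    simp [sgn]
  · intro f g hf hg
    change ρ (iV (add f g)) w = sgn (dot t (add f g)) • w
    rw [← iV_mul, map_mul, Module.End.mul_apply, hg, map_smul, hf, smul_smul, dot_add, sgn_xor, mul_comm]

/-- the weight space -/
def wt (ρ : Representation ℂ GG W) (t : V) : Submodule ℂ W where
  carrier := {w | VChar ρ w t}
  zero_mem' := by intro f; simp
  add_mem' := by
    intro a b ha hb f
    rw [map_add, ha f, hb f, smul_add]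
  smul_mem' := by
    intro c a ha f
    rw [map_smul, ha f, smul_comm]

theorem mem_wt {w : W} {t : V} : w ∈ wt ρ t ↔ VChar ρ w t := Iff.rfl

theorem iV_mul_iX (f : V) (x : XX) : iV f * iX x = iX x * iV (act x.s⁻¹ f) := by
  rw [iV_iX, iX_iV, ← act_mul, mul_inv_cancel, act_one]

/-- moving a weight vector -/
theorem vchar_move {w : W} {t t' : V} (h : VChar ρ w t) (x : XX)
    (hx : ∀ p, dot t (act x.s⁻¹ (dl p)) = dot t' (dl p)) : VChar ρ (ρ (iX x) w) t' := by
  apply vchar_of_dl
  intro p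
  rw [← Module.End.mul_apply, ← map_mul, iV_mul_iX, map_mul, Module.End.mul_apply, h, map_smul, hx]

theorem mono_inv (s : SL) : mono s⁻¹ = mono s := by
  have h : s⁻¹ = ⟨s.d, -s.b, -s.c, s.a, by have h1 := s.h; linear_combination h1⟩ := rfl
  rw [h]
  simp only [mono, neg_eq_zero]
  rw [Bool.and_comm (decide (s.d = 0))]

theorem mono_sg (e : Bool) (s : SL) : mono (SL.sg e s) = mono s := by
  cases e
  · rfl
  · simp only [SL.sg, mono, neg_eq_zero]

theorem mono_xinv (x : XX) : mono x⁻¹.s = mono x.s := by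
  change mono (SL.sg _ x.s⁻¹) = _
  rw [mono_sg, mono_inv]

theorem GG_inv (g : GG) : g⁻¹ = ⟨act g.x⁻¹.s g.v, g.x⁻¹⟩ := rfl

theorem eta (g : GG) : g = iV g.v * iX g.x := by rw [iV_iX]

theorem rho_g (g : GG) (w : W) : ρ g w = ρ (iV g.v) (ρ (iX g.x) w) := by
  conv_lhs => rw [eta g]
  rw [map_mul]; rfl

theorem zt_of_not_mono {v0 : W} (k : Bool) (h : VChar ρ v0 (tt k)) (g : GG) (hg : mono g.x.s = false) :
    Zt ρ v0 g := by
  obtain ⟨p, hp⟩ := F2 k g.x.s hg
  refine ⟨iV (dl p), iV (act g.x.s⁻¹ (dl p)), _, _, h (dl p), h _, (sgn_ne hp).symm, ?_⟩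
  congr 2
  rw [GG.mul_def, GG.mul_def]
  change (⟨add (dl p) (act (1 : XX).s g.v), 1 * g.x⟩ : GG) = ⟨add g.v (act g.x.s (act g.x.s⁻¹ (dl p))), g.x * 1⟩
  rw [GG.act_x1, ← act_mul, mul_inv_cancel, act_one, one_mul, mul_one, add_comm']

variable [FiniteDimensional ℂ W]

theorem typeA (hρ : ρ.IsIrreducible) (k : Bool) (h : ∃ w ∈ wt ρ (tt k), w ≠ 0) : nu ρ = 1 := by
  have hinv : ∀ x : XX, mono x.s = true → ∀ w ∈ wt ρ (tt k), ρ (iX x) w ∈ wt ρ (tt k) := by
    intro x hx w hw
    refine vchar_move hw x ?_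
    intro p
    have h1 := F3 k x.s hx (act x.s⁻¹ (dl p))
    rw [← act_mul, mul_inv_cancel, act_one] at h1
    exact h1.symm
  have me1 : mono e1.s = true := by decide
  have me2 : mono e2.s = true := by decide
  have mz : mono xz.s = true := by decide
  have se1 : e1 * e1 = 1 := by decide +kernel
  have se2 : e2 * e2 = 1 := by decide +kernel
  have sz : xz * xz = 1 := by decide +kernel
  have c12 : e1 * e2 = e2 * e1 := by decide +kernel
  have c1z : e1 * xz = xz * e1 := by decide +kernel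
  have c2z : e2 * xz = xz * e2 := by decide +kernel
  have hop : ∀ x y : XX, ∀ w, ρ (iX x) (ρ (iX y) w) = ρ (iX (x * y)) w := by
    intro x y w
    rw [← iX_mul, map_mul]; rfl
  have hop1 : ∀ w, ρ (iX 1) w = w := by
    intro w
    rw [iX_one, map_one]; rfl
  obtain ⟨v0, hv0N, hv0, hl⟩ := common_eig [ρ (iX e1), ρ (iX e2), ρ (iX xz)] (wt ρ (tt k)) h
    (by
      intro a ha w _
      simp only [List.mem_cons, List.not_mem_nil, or_false] at ha
      rcases ha with rfl | rfl | rfl
      · rw [hop, se1, hop1]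
      · rw [hop, se2, hop1]
      · rw [hop, sz, hop1])
    (by
      intro a ha b hb w _
      simp only [List.mem_cons, List.not_mem_nil, or_false] at ha hb
      rcases ha with rfl | rfl | rfl <;> rcases hb with rfl | rfl | rfl <;>
        simp only [hop, c12, c1z, c2z])
    (by
      intro a ha w hw
      simp only [List.mem_cons, List.not_mem_nil, or_false] at ha
      rcases ha with rfl | rfl | rfl
      · exact hinv _ me1 w hw
      · exact hinv _ me2 w hw
      · exact hinv _ mz w hw)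
  obtain ⟨c1, hc1, he1⟩ := hl _ (by simp : ρ (iX e1) ∈ _)
  obtain ⟨c2, hc2, he2⟩ := hl _ (by simp : ρ (iX e2) ∈ _)
  obtain ⟨cz, hcz, hez⟩ := hl _ (by simp : ρ (iX xz) ∈ _)
  refine nu_of_crit hρ v0 hv0 1 1 ?_
  intro g
  rw [one_mul, one_mul]
  cases hm : mono g.x.s with
  | false =>
    left
    refine ⟨zt_of_not_mono k hv0N g hm, zt_of_not_mono k hv0N g⁻¹ ?_⟩
    rw [GG_inv]
    change mono g.x⁻¹.s = false
    rw [mono_xinv, hm]
  | true =>
    have hsq : ρ (g * g) v0 = ρ (iX (g.x * g.x)) v0 := by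
      rw [GG.mul_def, rho_g]
      change ρ (iV (add g.v (act g.x.s g.v))) (ρ (iX (g.x * g.x)) v0) = _
      have hmem : ρ (iX (g.x * g.x)) v0 ∈ wt ρ (tt k) := by
        rw [← hop]
        exact hinv _ hm _ (hinv _ hm _ hv0N)
      rw [hmem, dot_add, F3 k g.x.s hm, Bool.xor_self]
      simp [sgn]
    have hgood : ρ (iX (g.x * g.x)) v0 = v0 → ρ g⁻¹ v0 = ρ g v0 := by
      intro h1
      have h2 := hsq
      rw [h1] at h2
      have h3 := congrArg (ρ g⁻¹) h2
      rw [← rho_mul, inv_mul_cancel_left] at h3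
      exact h3.symm
    have hfin : ρ (iX (g.x * g.x)) v0 = v0 → ∃ h h' : GG, ∃ c c' : ℂ, Eig ρ v0 h c ∧ Eig ρ v0 h' c' ∧ c * c' = 1 ∧
        ρ g⁻¹ v0 = ρ (h * g * h') v0 := by
      intro h1
      refine ⟨1, 1, 1, 1, ?_, ?_, by ring, ?_⟩
      · change ρ 1 v0 = (1 : ℂ) • v0
        rw [rho_one, one_smul]
      · change ρ 1 v0 = (1 : ℂ) • v0
        rw [rho_one, one_smul]
      · rw [one_mul, mul_one, hgood h1]
    rcases F6a g.x.e g.x.f g.x.s.a g.x.s.b g.x.s.c g.x.s.d g.x.s.h hm with h1 | ⟨h1, h2⟩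
    · right
      apply hfin
      change g.x * g.x = 1 at h1
      rw [h1, hop1]
    · change g.x * g.x = xz at h1
      rcases hcz with rfl | rfl
      · right
        apply hfin
        rw [h1, hez, one_smul]
      · left
        -- anticommuting involution
        have hA : ∀ (x : XX) (w : V) (E : XX), mono E.s = true → ∀ c : ℂ, (c = 1 ∨ c = -1) → ρ (iX E) v0 = c • v0 →
            E * x = x * (E * xz) → Zt ρ v0 ⟨w, x⟩ := by
          intro x w E hE c hc hEv hcom
          refine ⟨iV (add w (act E.s w)) * iX E, iX (E * xz), c, -c, ?_, ?_, ?_, ?_⟩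
          · change ρ (iV (add w (act E.s w)) * iX E) v0 = c • v0
            rw [rho_mul, hEv, map_smul, hv0N, dot_add, F3 k E.s hE, Bool.xor_self]
            simp [sgn]
          · change ρ (iX (E * xz)) v0 = (-c) • v0
            rw [← hop, hez, map_smul, hEv, smul_smul]
            ring_nf
          · rcases hc with rfl | rfl <;> norm_num
          · congr 2
            rw [iV_iX, GG.mul_def, GG.mul_def]
            change (⟨add (add w (act E.s w)) (act E.s w), E * x⟩ : GG) =
              ⟨add w (act x.s (fun _ => false)), x * (E * xz)⟩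
            rw [add_assoc', add_self, act_zero, hcom]
        have hcinv : ∀ E : XX, E * g.x = g.x * (E * xz) → E * xz = xz * E → E * g.x⁻¹ = g.x⁻¹ * (E * xz) := by
          intro E hE hz
          have h3 : g.x⁻¹ * (E * g.x) * g.x⁻¹ = g.x⁻¹ * (g.x * (E * xz)) * g.x⁻¹ := by rw [hE]
          have h4 : g.x⁻¹ * E = E * xz * g.x⁻¹ := by
            simpa [mul_assoc] using h3
          have hzc : xz * g.x⁻¹ = g.x⁻¹ * xz := by
            rw [← h1]; group
          calc E * g.x⁻¹ = E * xz * g.x⁻¹ * xz := by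
                rw [mul_assoc (E * xz), ← hzc, mul_assoc E, ← mul_assoc xz, sz, one_mul]
            _ = g.x⁻¹ * E * xz := by rw [h4]
            _ = g.x⁻¹ * (E * xz) := by rw [mul_assoc]
        rcases h2 with h2 | h2
        · change e1 * g.x = g.x * (e1 * xz) at h2
          refine ⟨hA g.x g.v e1 me1 c1 hc1 he1 h2, ?_⟩
          rw [GG_inv]
          exact hA g.x⁻¹ _ e1 me1 c1 hc1 he1 (hcinv e1 h2 c1z)
        · change e2 * g.x = g.x * (e2 * xz) at h2
          refine ⟨hA g.x g.v e2 me2 c2 hc2 he2 h2, ?_⟩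
          rw [GG_inv]
          exact hA g.x⁻¹ _ e2 me2 c2 hc2 he2 (hcinv e2 h2 c2z)

end Pool.Agent.Helper273.FS
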