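import Mathlib
import Pool.Agent.Helper273_FS.MainG

/-! Every irreducible character of `2^5 : (Q₈ ∘ SL₂(5))` has indicator `1`: the rest. -/

set_option autoImplicit false
set_option linter.all false
set_option maxRecDepth 100000

open Representation Module

noncomputable section

namespace Pool.Agent.Helper273.FS

variable {W : Type} [AddCommGroup W] [Module ℂ W] {ρ : Representation ℂ GG W}

theorem hop (x y : XX) (w : W) : ρ (iX x) (ρ (iX y) w) = ρ (iX (x * y)) w := by
  rw [← iX_mul, map_mul]; rfl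

theorem hop1 (w : W) : ρ (iX 1) w = w := by
  rw [iX_one, map_one]; rfl

theorem xu_xu : xu * xu = 1 := by decide +kernel
theorem T_one_pow : ∀ k : ZMod 5, T k = T 1 ^ k.val := by decide +kernel
theorem T_neg : ∀ k : ZMod 5, T (-k) = (T k)⁻¹ := by decide +kernel
theorem xi_T : xi * T 1 = T 1 * xi := by decide +kernel
theorem xi_sq : xi * xi = xz := by decide +kernel
theorem xj_sq : xj * xj = xz := by decide +kernel
theorem xz_sq : xz * xz = 1 := by decide +kernel
theorem xi_xj : xi * xj = xj * (xi * xz) := by decide +kernel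
theorem T_five : T 1 * (T 1 * (T 1 * (T 1 * T 1))) = 1 := by decide +kernel
theorem lo_conj : ∀ k : ZMod 5, (⟨false, false, lo k⟩ : XX) = ⟨false, false, dn⟩⁻¹ * T (-k) * ⟨false, false, dn⟩ := by
  decide +kernel

/-- the set of elements acting trivially -/
def Ker (ρ : Representation ℂ GG W) (x : XX) : Prop := ∀ w, ρ (iX x) w = w

theorem Ker.mul {x y : XX} (hx : Ker ρ x) (hy : Ker ρ y) : Ker ρ (x * y) := by
  intro w; rw [← hop, hy, hx]

theorem Ker.one : Ker ρ 1 := fun w => hop1 w

theorem Ker.inv {x : XX} (hx : Ker ρ x) : Ker ρ x⁻¹ := by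
  intro w
  have h := hx (ρ (iX x⁻¹) w)
  rw [hop, mul_inv_cancel, hop1] at h
  exact h.symm

theorem Ker.pow {x : XX} (hx : Ker ρ x) (n : ℕ) : Ker ρ (x ^ n) := by
  induction n with
  | zero => rw [pow_zero]; exact Ker.one
  | succ n ih => rw [pow_succ]; exact ih.mul hx

theorem Ker.conj {x : XX} (hx : Ker ρ x) (y : XX) : Ker ρ (y⁻¹ * x * y) := by
  intro w
  rw [← hop, ← hop, hx, hop, inv_mul_cancel, hop1]

theorem mulS (s t : SL) : (⟨false, false, s⟩ : XX) * ⟨false, false, t⟩ = ⟨false, false, s * t⟩ := rfl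

theorem ker_all (h : Ker ρ (T 1)) (s : SL) : Ker ρ ⟨false, false, s⟩ := by
  have hT : ∀ k, Ker ρ (T k) := fun k => by rw [T_one_pow]; exact h.pow _
  have hL : ∀ k, Ker ρ ⟨false, false, lo k⟩ := fun k => by rw [lo_conj]; exact (hT _).conj _
  obtain ⟨k, l, m, r, rfl⟩ := gen s
  rw [← mulS, ← mulS, ← mulS]
  exact (((hT k).mul (hL l)).mul (hT m)).mul (hL r)

theorem xdecomp : ∀ x : XX, x = (if x.e then xi else 1) * ((if x.f then xj else 1) * ⟨false, false, x.s⟩) := by
  rintro ⟨e, f, s⟩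
  cases e <;> cases f
  · change (⟨false, false, s⟩ : XX) = 1 * (1 * _)
    rw [one_mul, one_mul]
  · change (⟨false, true, s⟩ : XX) = 1 * (xj * _)
    rw [one_mul]
    change (⟨false, true, s⟩ : XX) = ⟨false, true, SL.sg false (1 * s)⟩
    rw [one_mul]; rfl
  · change (⟨true, false, s⟩ : XX) = xi * (1 * _)
    rw [one_mul]
    change (⟨true, false, s⟩ : XX) = ⟨true, false, SL.sg false (1 * s)⟩
    rw [one_mul]; rfl
  · change (⟨true, true, s⟩ : XX) = ⟨true, true, SL.sg false (1 * SL.sg false (1 * s))⟩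
    rw [one_mul]
    change _ = (⟨true, true, 1 * s⟩ : XX)
    rw [one_mul]

variable [FiniteDimensional ℂ W]

theorem typeB (hρ : ρ.IsIrreducible) (t : V) (ht : ∀ (s : SL) (f : V), dot t (act s f) = dot t f)
    (hV : ∀ w, VChar ρ w t) : nu ρ = 1 := by
  have hg : ∀ (g : GG) w, ρ g w = sgn (dot t g.v) • ρ (iX g.x) w := by
    intro g w
    rw [rho_g, hV]
  by_cases hcase : ∃ ω : ℂ, ω ≠ 1 ∧ ∃ w : W, w ≠ 0 ∧ ρ (iX (T 1)) w = ω • w
  · obtain ⟨ω, hω1, w, hw0, hw⟩ := hcase
    -- ω ^ 5 = 1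
    have hω5 : ω ^ 5 = 1 := by
      have h1 : ρ (iX (T 1 * (T 1 * (T 1 * (T 1 * T 1))))) w = ω ^ 5 • w := by
        rw [← hop, ← hop, ← hop, ← hop]
        simp only [hw, map_smul, smul_smul]
        ring_nf
      rw [T_five, hop1] at h1
      have h2 : (ω ^ 5 - 1) • w = 0 := by rw [sub_smul, ← h1, one_smul, sub_self]
      exact sub_eq_zero.1 ((smul_eq_zero.1 h2).resolve_right hw0)
    have hω0 : ω ≠ 0 := by
      rintro rfl
      norm_num at hω5
    let N : Submodule ℂ W := LinearMap.ker (ρ (iX (T 1)) - ω • LinearMap.id)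
    have hN : ∀ v, v ∈ N ↔ ρ (iX (T 1)) v = ω • v := by
      intro v
      simp only [N, LinearMap.mem_ker, LinearMap.sub_apply, LinearMap.smul_apply, LinearMap.id_coe, id_eq,
        sub_eq_zero]
    have hNi : ∀ v ∈ N, ρ (iX xi) v ∈ N := by
      intro v hv
      rw [hN] at hv ⊢
      rw [hop, ← xi_T, ← hop, hv, map_smul]
    haveI : Nontrivial N := ⟨⟨w, (hN w).2 hw⟩, 0, by
      intro h
      exact hw0 (congrArg Subtype.val h)⟩
    obtain ⟨η, hη⟩ := Module.End.exists_eigenvalue ((ρ (iX xi)).restrict hNi)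
    obtain ⟨v, hv⟩ := hη.exists_hasEigenvector
    have hv0 : (v : W) ≠ 0 := by
      intro h
      exact hv.2 (Subtype.ext h)
    have hvη : ρ (iX xi) (v : W) = η • (v : W) := by
      have h1 := congrArg Subtype.val hv.apply_eq_smul
      exact h1
    have hvω : ρ (iX (T 1)) (v : W) = ω • (v : W) := (hN _).1 v.2
    generalize (v : W) = v0 at hv0 hvη hvω
    have hz : ρ (iX xz) v0 = (η ^ 2) • v0 := by
      rw [← xi_sq, ← hop, hvη, map_smul, hvη, smul_smul, sq]
    have hη4 : η ^ 2 = 1 ∨ η ^ 2 = -1 := by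
      have h1 : ρ (iX (xz * xz)) v0 = (η ^ 4) • v0 := by
        rw [← hop, hz, map_smul, hz, smul_smul]
        ring_nf
      rw [xz_sq, hop1] at h1
      have h2 : (η ^ 4 - 1) • v0 = 0 := by rw [sub_smul, ← h1, one_smul, sub_self]
      have h3 := (smul_eq_zero.1 h2).resolve_right hv0
      have h4 : (η ^ 2 - 1) * (η ^ 2 + 1) = 0 := by linear_combination h3
      rcases mul_eq_zero.1 h4 with h5 | h5
      · left; linear_combination h5
      · right; linear_combination h5
    have hη0 : η ≠ 0 := by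
      rintro rfl
      rcases hη4 with h | h <;> norm_num at h
    have hinv : ∀ (x : XX) (c : ℂ), c ≠ 0 → ρ (iX x) v0 = c • v0 → ρ (iX x⁻¹) v0 = c⁻¹ • v0 := by
      intro x c hc h
      have h1 := congrArg (ρ (iX x⁻¹)) h
      rw [hop, inv_mul_cancel, hop1, map_smul] at h1
      conv_rhs => rw [h1]
      rw [smul_smul, inv_mul_cancel₀ hc, one_smul]
    have hTk : ∀ n : ℕ, ρ (iX (T 1 ^ n)) v0 = ω ^ n • v0 := by
      intro n
      induction n with
      | zero => rw [pow_zero, pow_zero, hop1, one_smul]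
      | succ n ih => rw [pow_succ', ← hop, ih, map_smul, hvω, smul_smul, pow_succ]
    have hT : ∀ m : ZMod 5, ρ (iX (T m)) v0 = ω ^ m.val • v0 := by
      intro m; rw [T_one_pow]; exact hTk _
    have hTn : ∀ m : ZMod 5, ρ (iX (T (-m))) v0 = (ω ^ m.val)⁻¹ • v0 := by
      intro m
      rw [T_neg]
      exact hinv _ _ (pow_ne_zero _ hω0) (hT m)
    refine nu_of_crit hρ v0 hv0 (iX xu) 1 ?_
    intro g
    set Y : XX := xu * g.x with hY
    have hsig : sig Y = xu * g.x⁻¹ := by
      simp only [sig, hY]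
      rw [mul_inv_rev]
      have h1 : xu⁻¹ = xu := by rw [inv_eq_iff_mul_eq_one]; exact xu_xu
      rw [h1, mul_assoc, mul_assoc, xu_xu, mul_one]
    have hu1 : ∀ w, ρ (iX xu * g) w = sgn (dot t g.v) • ρ (iX Y) w := by
      intro w
      rw [hg]
      change sgn (dot t (add (fun _ => false) (act xu.s g.v))) • ρ (iX (xu * g.x)) w = _
      rw [zero_add', ht]
    have hu2 : ∀ w, ρ (iX xu * g⁻¹) w = sgn (dot t g.v) • ρ (iX (sig Y)) w := by
      intro w
      rw [hg, hsig]
      change sgn (dot t (add (fun _ => false) (act xu.s (act g.x⁻¹.s g.v)))) • ρ (iX (xu * g.x⁻¹)) w = _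
      rw [zero_add', ht, ht]
    have hztype : ∀ (g' : GG) (y x : XX) (c : ℂ), (∀ w, ρ g' w = sgn (dot t g.v) • ρ (iX y) w) →
        ρ (iX x) v0 = c • v0 → c ≠ 0 → c ≠ c⁻¹ → x * y = y * x⁻¹ → Zt ρ v0 g' := by
      intro g' y x c h1 h2 h3 h4 h5
      refine ⟨iX x, iX x⁻¹, c, c⁻¹, h2, hinv x c h3 h2, h4, ?_⟩
      rw [rho_mul, rho_mul, h1, h1, map_smul, hop, hop, h5]
    rcases F1 Y with ⟨h1, h2⟩ | ⟨m, h1⟩ | ⟨h1, h2, m, h3⟩
    · left
      have hne : ω ≠ ω⁻¹ := by
        intro h
        have h6 : ω ^ 2 = 1 := by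
          rw [sq]
          nth_rewrite 2 [h]
          exact mul_inv_cancel₀ hω0
        apply hω1
        have h7 : ω ^ 5 = ω := by
          calc ω ^ 5 = (ω ^ 2) ^ 2 * ω := by ring
            _ = ω := by rw [h6]; ring
        rw [← h7, hω5]
      exact ⟨hztype _ Y (T 1) ω hu1 hvω hω0 hne h1, hztype _ (sig Y) (T 1) ω hu2 hvω hω0 hne h2⟩
    · right
      refine ⟨iX (T m), iX (T (-m)), _, _, hT m, hTn m, mul_inv_cancel₀ (pow_ne_zero _ hω0), ?_⟩
      rw [hu2, h1, rho_mul, rho_mul, hu1, map_smul, hop, hop, mul_assoc]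
    · rcases hη4 with h4 | h4
      · right
        refine ⟨iX (T m), iX (T (-m) * xz), _, (ω ^ m.val)⁻¹, hT m, ?_, mul_inv_cancel₀ (pow_ne_zero _ hω0), ?_⟩
        · change ρ (iX (T (-m) * xz)) v0 = _
          rw [← hop, hz, h4, one_smul, hTn]
        · rw [hu2, h3, rho_mul, rho_mul, hu1, map_smul, hop, hop, mul_assoc]
      · left
        have hne : η ≠ η⁻¹ := by
          intro h
          have h6 : η ^ 2 = 1 := by
            rw [sq]
            nth_rewrite 2 [h]
            exact mul_inv_cancel₀ hη0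
          rw [h4] at h6
          norm_num at h6
        exact ⟨hztype _ Y xi η hu1 hvη hη0 hne h1, hztype _ (sig Y) xi η hu2 hvη hη0 hne h2⟩
  · -- `T 1` acts trivially
    push Not at hcase
    have hT1 : Ker ρ (T 1) := by
      intro w
      by_contra hne
      set w' := ρ (iX (T 1)) w - w with hw'
      have hw'0 : w' ≠ 0 := sub_ne_zero.2 hne
      let A : W →ₗ[ℂ] W := ρ (iX (T 1))
      have hA5 : ∀ w, A (A (A (A (A w)))) = w := by
        intro w
        change ρ (iX (T 1)) (ρ (iX (T 1)) (ρ (iX (T 1)) (ρ (iX (T 1)) (ρ (iX (T 1)) w)))) = w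
        rw [hop, hop, hop, hop]
        have : T 1 * T 1 * T 1 * T 1 * T 1 = 1 := by rw [← T_five]; group
        rw [mul_assoc, mul_assoc, mul_assoc, T_five, hop1]
      let C : W →ₗ[ℂ] W := LinearMap.id + A + A ∘ₗ A + A ∘ₗ A ∘ₗ A + A ∘ₗ A ∘ₗ A ∘ₗ A
      have hC : ∀ w, C w = w + A w + A (A w) + A (A (A w)) + A (A (A (A w))) := fun _ => rfl
      have hCw' : C w' = 0 := by
        rw [hC, hw']
        change (A w - w) + A (A w - w) + A (A (A w - w)) + A (A (A (A w - w))) + A (A (A (A (A w - w)))) = 0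
        simp only [map_sub, hA5]
        abel
      have hCi : ∀ v ∈ LinearMap.ker C, A v ∈ LinearMap.ker C := by
        intro v hv
        rw [LinearMap.mem_ker] at hv ⊢
        have h1 := congrArg A hv
        rw [hC] at h1
        rw [hC]
        simpa only [map_add, map_zero] using h1
      haveI : Nontrivial (LinearMap.ker C) := ⟨⟨w', hCw'⟩, 0, by
        intro h
        exact hw'0 (congrArg Subtype.val h)⟩
      obtain ⟨ω, hω⟩ := Module.End.exists_eigenvalue (A.restrict hCi)
      obtain ⟨v, hv⟩ := hω.exists_hasEigenvector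
      have hv0 : (v : W) ≠ 0 := by
        intro h
        exact hv.2 (Subtype.ext h)
      have hvω : A (v : W) = ω • (v : W) := by
        have h1 := congrArg Subtype.val hv.apply_eq_smul
        exact h1
      have hω1 : ω ≠ 1 := by
        rintro rfl
        have h1 : C (v : W) = 0 := v.2
        rw [hC, hvω, one_smul, hvω, one_smul, hvω, one_smul, hvω, one_smul] at h1
        have h2 : (5 : ℂ) • (v : W) = 0 := by
          rw [← h1]; module
        exact hv0 ((smul_eq_zero.1 h2).resolve_left (by norm_num))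
      exact hcase ω hω1 v hv0 hvω
    have hS := ker_all hT1
    have hzk : Ker ρ xz := hS _
    obtain ⟨w0, hw0⟩ := irr_nontriv hρ
    obtain ⟨v0, -, hv0, hl⟩ := common_eig [ρ (iX xi), ρ (iX xj)] ⊤ ⟨w0, trivial, hw0⟩
      (by
        intro a ha w _
        simp only [List.mem_cons, List.not_mem_nil, or_false] at ha
        rcases ha with rfl | rfl
        · rw [hop, xi_sq, hzk]
        · rw [hop, xj_sq, hzk])
      (by
        intro a ha b hb w _
        have hc : ρ (iX xi) (ρ (iX xj) w) = ρ (iX xj) (ρ (iX xi) w) := by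
          rw [hop, hop, xi_xj, ← mul_assoc, ← hop _ xz, hzk]
        simp only [List.mem_cons, List.not_mem_nil, or_false] at ha hb
        rcases ha with rfl | rfl <;> rcases hb with rfl | rfl
        · rfl
        · exact hc
        · exact hc.symm
        · rfl)
      (fun _ _ _ _ => trivial)
    obtain ⟨ci, hci, hei⟩ := hl _ (by simp : ρ (iX xi) ∈ _)
    obtain ⟨cj, hcj, hej⟩ := hl _ (by simp : ρ (iX xj) ∈ _)
    have hall : ∀ g : GG, ∃ c : ℂ, c * c = 1 ∧ ρ g v0 = c • v0 := by
      intro g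
      have hx : ∃ c : ℂ, c * c = 1 ∧ ρ (iX g.x) v0 = c • v0 := by
        have hI : ∃ c : ℂ, c * c = 1 ∧ ρ (iX (if g.x.e then xi else 1)) v0 = c • v0 := by
          cases g.x.e
          · exact ⟨1, by ring, by simp [hop1]⟩
          · refine ⟨ci, ?_, by simpa using hei⟩
            rcases hci with rfl | rfl <;> ring
        have hJ : ∃ c : ℂ, c * c = 1 ∧ ρ (iX (if g.x.f then xj else 1)) v0 = c • v0 := by
          cases g.x.f
          · exact ⟨1, by ring, by simp [hop1]⟩
          · refine ⟨cj, ?_, by simpa using hej⟩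
            rcases hcj with rfl | rfl <;> ring
        obtain ⟨a, ha, hI⟩ := hI
        obtain ⟨b, hb, hJ⟩ := hJ
        refine ⟨b * a, by linear_combination a * a * hb + ha, ?_⟩
        conv_lhs => rw [xdecomp g.x]
        rw [← hop, ← hop, hS, hJ, map_smul, hI, smul_smul]
      obtain ⟨c, hc, h⟩ := hx
      refine ⟨sgn (dot t g.v) * c, ?_, by rw [hg, h, smul_smul]⟩
      have := sgn_mul_self (dot t g.v)
      linear_combination c * c * this + hc
    refine nu_of_crit hρ v0 hv0 1 1 ?_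
    intro g
    right
    refine ⟨1, 1, 1, 1, ?_, ?_, by ring, ?_⟩
    · change ρ 1 v0 = (1 : ℂ) • v0
      rw [rho_one, one_smul]
    · change ρ 1 v0 = (1 : ℂ) • v0
      rw [rho_one, one_smul]
    · rw [one_mul, one_mul, one_mul, mul_one]
      obtain ⟨c, hc, h⟩ := hall g
      rw [h]
      have h2 := congrArg (ρ g⁻¹) h
      rw [← rho_mul, inv_mul_cancel, rho_one, map_smul] at h2
      have h3 : c • v0 = (c * c) • ρ g⁻¹ v0 := by
        conv_lhs => rw [h2]
        rw [smul_smul]
      rw [h3, hc, one_smul]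

/-- every irreducible representation of `GG` has indicator `1` -/
theorem nuGG (hρ : ρ.IsIrreducible) : nu ρ = 1 := by
  have hcom : ∀ p q : ZMod 5, ∀ w, ρ (iV (dl p)) (ρ (iV (dl q)) w) = ρ (iV (dl q)) (ρ (iV (dl p)) w) := by
    intro p q w
    rw [← rho_mul, ← rho_mul, iV_mul, iV_mul, add_comm']
  have hsq : ∀ p : ZMod 5, ∀ w, ρ (iV (dl p)) (ρ (iV (dl p)) w) = w := by
    intro p w
    rw [← rho_mul, iV_mul, add_self]
    exact rho_one w
  obtain ⟨w0, hw0⟩ := irr_nontriv hρ
  obtain ⟨v0, -, hv0, hl⟩ := common_eig ((List.finRange 5).map (fun p : ZMod 5 => (ρ (iV (dl p)) : Module.End ℂ W))) ⊤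
    ⟨w0, trivial, hw0⟩
    (by
      intro a ha w _
      obtain ⟨p, -, rfl⟩ := List.mem_map.1 ha
      exact hsq p w)
    (by
      intro a ha b hb w _
      obtain ⟨p, -, rfl⟩ := List.mem_map.1 ha
      obtain ⟨q, -, rfl⟩ := List.mem_map.1 hb
      exact hcom p q w)
    (fun _ _ _ _ => trivial)
  have hl' : ∀ p : ZMod 5, ∃ b : Bool, ρ (iV (dl p)) v0 = sgn b • v0 := by
    intro p
    obtain ⟨c, hc, h⟩ := hl (ρ (iV (dl p))) (List.mem_map.2 ⟨p, List.mem_finRange _, rfl⟩)
    rcases hc with rfl | rfl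
    · exact ⟨false, by simpa [sgn] using h⟩
    · exact ⟨true, by simpa [sgn] using h⟩
  choose t ht using hl'
  have hV0 : VChar ρ v0 t := by
    apply vchar_of_dl
    intro p
    rw [dot_dl, ht]
  by_cases hconst : t 0 = t 1 ∧ t 1 = t 2 ∧ t 2 = t 3 ∧ t 3 = t 4
  · -- type B
    have htinv : ∀ (s : SL) (f : V), dot t (act s f) = dot t f := by
      intro s f
      obtain ⟨h1, h2, h3, h4⟩ := hconst
      have hcase : t = mkV false false false false false ∨ t = mkV true true true true true := by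
        rw [mkV_eq t, ← h4, ← h3, ← h2, ← h1]
        cases t 0
        · left; rfl
        · right; rfl
      rcases hcase with h | h
      · rw [h]
        simp [dot, mkV]
      · rw [h, mkV_eq f]
        exact F5a s.a s.b s.c s.d s.h _ _ _ _ _
    have htop : wt ρ t = ⊤ := by
      apply irr_top hρ
      · intro g w hw f
        rw [rho_g g w, ← rho_mul (iV f), iV_mul, add_comm' f, ← iV_mul, rho_mul, ← rho_mul (iV f), iV_mul_iX,
          rho_mul, hw, map_smul, map_smul, ← rho_g]
        congr 2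
        have h1 := htinv g.x.s (act g.x.s⁻¹ f)
        rw [← act_mul, mul_inv_cancel, act_one] at h1
        exact h1.symm
      · exact ⟨v0, hV0, hv0⟩
    exact typeB hρ t htinv (fun w => by
      have : w ∈ wt ρ t := by rw [htop]; trivial
      exact this)
  · -- type A
    obtain ⟨a, b, c, d, h, k, hk⟩ := F4a (t 0) (t 1) (t 2) (t 3) (t 4) hconst
    rw [← mkV_eq t] at hk
    refine typeA hρ k ⟨ρ (iX ⟨false, false, ⟨a, b, c, d, h⟩⟩) v0, vchar_move hV0 _ hk, ?_⟩
    intro h0
    apply hv0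
    have h1 := congrArg (ρ (iX ⟨false, false, ⟨a, b, c, d, h⟩⟩)⁻¹) h0
    rwa [← rho_mul, inv_mul_cancel, rho_one, map_zero] at h1

end Pool.Agent.Helper273.FS
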