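import Mathlib
import Pool.Agent.Helper273_FS.MainB
import Pool.Agent.Helper273_FS.Gen3

/-! A Sylow `2`-subgroup of `2^5 : (Q₈ ∘ SL₂(5))`: all characters are real-valued, some are symplectic. -/

set_option autoImplicit false
set_option linter.all false
set_option maxRecDepth 100000

open Representation Module

noncomputable section

namespace Pool.Agent.Helper273.FS

theorem mono_iff (s : SL) : mono s = true ↔ (s.b = 0 ∧ s.c = 0) ∨ (s.a = 0 ∧ s.d = 0) := by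
  simp [mono]

theorem mono_mul (s t : SL) (hs : mono s = true) (ht : mono t = true) : mono (s * t) = true := by
  rw [mono_iff] at hs ht ⊢
  rw [SL.mul_a, SL.mul_b, SL.mul_c, SL.mul_d]
  rcases hs with ⟨h1, h2⟩ | ⟨h1, h2⟩ <;> rcases ht with ⟨h3, h4⟩ | ⟨h3, h4⟩
  · left; simp [h1, h2, h3, h4]
  · right; simp [h1, h2, h3, h4]
  · right; simp [h1, h2, h3, h4]
  · left; simp [h1, h2, h3, h4]

theorem mono_xmul (x y : XX) (hs : mono x.s = true) (ht : mono y.s = true) : mono (x * y).s = true := by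
  change mono (SL.sg _ (x.s * y.s)) = true
  rw [mono_sg]
  exact mono_mul _ _ hs ht

/-- the subgroup of order `2 ^ 10` -/
def SS : Subgroup GG where
  carrier := {g | mono g.x.s = true}
  one_mem' := by
    change mono 1 = true
    decide
  mul_mem' := by
    intro g h hg hh
    exact mono_xmul g.x h.x hg hh
  inv_mem' := by
    intro g hg
    change mono g.x⁻¹.s = true
    rw [mono_xinv]
    exact hg

instance : Fintype SS := Fintype.ofFinite _

def monoEquiv : SS ≃ V × Bool × Bool × {s : SL // mono s = true} where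
  toFun g := (g.1.v, g.1.x.e, g.1.x.f, ⟨g.1.x.s, g.2⟩)
  invFun p := ⟨⟨p.1, ⟨p.2.1, p.2.2.1, p.2.2.2.1⟩⟩, p.2.2.2.2⟩
  left_inv _ := rfl
  right_inv _ := rfl

theorem card_SL : Fintype.card SL = 120 := by
  have h : Fintype.card {p : ZMod 5 × ZMod 5 × ZMod 5 × ZMod 5 // p.1 * p.2.2.2 - p.2.1 * p.2.2.1 = 1} = 120 := by
    decide +kernel
  rw [← h]
  exact Fintype.card_congr SL.equivSub

theorem card_mono : Fintype.card {s : SL // mono s = true} = 8 := by
  have h : Fintype.card {p : ZMod 5 × ZMod 5 × ZMod 5 × ZMod 5 // p.1 * p.2.2.2 - p.2.1 * p.2.2.1 = 1 ∧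
      ((p.2.1 = 0 ∧ p.2.2.1 = 0) ∨ (p.1 = 0 ∧ p.2.2.2 = 0))} = 8 := by
    decide +kernel
  rw [← h]
  refine Fintype.card_congr ⟨fun s => ⟨(s.1.a, s.1.b, s.1.c, s.1.d), s.1.h, (mono_iff _).1 s.2⟩,
    fun p => ⟨⟨p.1.1, p.1.2.1, p.1.2.2.1, p.1.2.2.2, p.2.1⟩, (mono_iff _).2 p.2.2⟩, fun _ => rfl, fun _ => rfl⟩

theorem card_V : Fintype.card V = 32 := by
  rw [Fintype.card_fun, ZMod.card, Fintype.card_bool]
  rfl

theorem card_GG : Nat.card GG = 15360 := by
  rw [Nat.card_congr GG.equivProd, Nat.card_prod, Nat.card_congr XX.equivProd, Nat.card_prod, Nat.card_prod,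
    Nat.card_eq_fintype_card, Nat.card_eq_fintype_card, Nat.card_eq_fintype_card, card_V, card_SL,
    Fintype.card_bool]

theorem card_SS : Nat.card SS = 1024 := by
  rw [Nat.card_congr monoEquiv, Nat.card_prod, Nat.card_prod, Nat.card_prod,
    Nat.card_eq_fintype_card, Nat.card_eq_fintype_card, Nat.card_eq_fintype_card, card_V, card_mono,
    Fintype.card_bool]

theorem SS_isPGroup : IsPGroup 2 SS := by
  refine IsPGroup.of_card (n := 10) ?_
  rw [card_SS]; norm_num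

theorem SS_index : SS.index = 15 := by
  have h := SS.card_mul_index
  rw [card_SS, card_GG] at h
  omega

/-- the Sylow `2`-subgroup -/
def SylS : Sylow 2 GG := SS_isPGroup.toSylow (by rw [SS_index]; norm_num)

theorem SylS_coe : (SylS : Subgroup GG) = SS := rfl

theorem ss_real (g : SS) : ∃ x : SS, x * g = g⁻¹ * x := by
  obtain ⟨e', f', a', b', c', d', h', hm', h1, h2⟩ := F7a g.1.x.e g.1.x.f g.1.x.s.a g.1.x.s.b g.1.x.s.c g.1.x.s.d
    g.1.x.s.h g.2
  obtain ⟨c0, c1, c2, c3, c4, h3⟩ := h2 (g.1.v 0) (g.1.v 1) (g.1.v 2) (g.1.v 3) (g.1.v 4)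
  rw [← mkV_eq g.1.v] at h3
  refine ⟨⟨⟨mkV c0 c1 c2 c3 c4, ⟨e', f', ⟨a', b', c', d', h'⟩⟩⟩, hm'⟩, ?_⟩
  apply Subtype.ext
  change (⟨mkV c0 c1 c2 c3 c4, ⟨e', f', ⟨a', b', c', d', h'⟩⟩⟩ : GG) * g.1 = (g.1)⁻¹ * ⟨mkV c0 c1 c2 c3 c4, ⟨e', f', ⟨a', b', c', d', h'⟩⟩⟩
  rw [GG.mul_def, GG_inv, GG.mul_def]
  refine GG.ext ?_ ?_
  · funext p
    have h4 := h3 p
    change add (mkV c0 c1 c2 c3 c4) (act (⟨a', b', c', d', h'⟩ : SL) g.1.v) p =
      add (act (SL.sg _ g.1.x.s⁻¹) g.1.v) (act (SL.sg _ g.1.x.s⁻¹) (mkV c0 c1 c2 c3 c4)) p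
    rw [act_sg, act_sg]
    exact h4
  · exact h1

/-- plus or minus the identity -/
def pm (s : SL) : Prop := s.b = 0 ∧ s.c = 0 ∧ s.a * s.a = 1

theorem pm_sg (e : Bool) (s : SL) : pm (SL.sg e s) ↔ pm s := by
  cases e
  · rfl
  · simp only [pm, SL.sg, neg_eq_zero, neg_mul_neg]

theorem pm_inv (s : SL) : pm s⁻¹ ↔ pm s := by
  have h0 : s⁻¹ = ⟨s.d, -s.b, -s.c, s.a, by have h1 := s.h; linear_combination h1⟩ := rfl
  have h := s.h
  rw [h0]
  simp only [pm, neg_eq_zero]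
  constructor
  · rintro ⟨h1, h2, h3⟩
    refine ⟨h1, h2, ?_⟩
    rw [h1, zero_mul, sub_zero] at h
    linear_combination (s.a * s.a - 0) * (-h3) + (s.a * s.d + 1) * h
  · rintro ⟨h1, h2, h3⟩
    refine ⟨h1, h2, ?_⟩
    rw [h1, zero_mul, sub_zero] at h
    linear_combination (s.d * s.d) * (-h3) + (s.a * s.d + 1) * h

theorem pm_cases (s : SL) (h : pm s) : s = 1 ∨ s = SL.sg true 1 := by
  have h0 : ∀ a b c d : ZMod 5, ∀ h : a * d - b * c = 1, (b = 0 ∧ c = 0 ∧ a * a = 1) →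
      (⟨a, b, c, d, h⟩ : SL) = 1 ∨ (⟨a, b, c, d, h⟩ : SL) = SL.sg true 1 := by
    decide +kernel
  exact h0 s.a s.b s.c s.d s.h h

theorem act_pm (s : SL) (h : pm s) (f : V) : act s f = f := by
  rcases pm_cases s h with rfl | rfl
  · exact act_one f
  · rw [act_sg, act_one]

theorem act_inv_pm (s : SL) (h : pm s) (f : V) : act s⁻¹ f = f := act_pm _ ((pm_inv s).2 h) f

/-- character values (inverse) on the cyclic group generated by `xi`, as exponents; `none` off this group -/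
def ex (x : XX) : Option (ZMod 4) :=
  if x.f = true then none else
  if x.s = 1 then (if x.e = true then some 3 else some 0) else
  if x.s = SL.sg true 1 then (if x.e = true then some 1 else some 2) else none

theorem ex_xi_aux : ∀ e f : Bool, ∀ a b c d : ZMod 5, ∀ h : a * d - b * c = 1,
    ex (xi⁻¹ * ⟨e, f, ⟨a, b, c, d, h⟩⟩) = (ex ⟨e, f, ⟨a, b, c, d, h⟩⟩).map (· + 1) := by
  decide +kernel

theorem ex_xi (x : XX) : ex (xi⁻¹ * x) = (ex x).map (· + 1) :=
  ex_xi_aux x.e x.f x.s.a x.s.b x.s.c x.s.d x.s.h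

/-- the complex number attached to an exponent -/
def cx : Option (ZMod 4) → ℂ
  | none => 0
  | some k => Complex.I ^ k.val

theorem cx_succ (o : Option (ZMod 4)) : cx (o.map (· + 1)) = Complex.I * cx o := by
  cases o with
  | none => simp [cx]
  | some k =>
    have hI4 : Complex.I ^ 4 = 1 := Complex.I_pow_four
    change Complex.I ^ (k + 1).val = Complex.I * Complex.I ^ k.val
    fin_cases k
    · change Complex.I ^ 1 = Complex.I * Complex.I ^ 0
      ring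
    · change Complex.I ^ 2 = Complex.I * Complex.I ^ 1
      ring
    · change Complex.I ^ 3 = Complex.I * Complex.I ^ 2
      ring
    · change Complex.I ^ 0 = Complex.I * Complex.I ^ 3
      rw [← pow_succ', hI4, pow_zero]

/-- the regular representation -/
def reg : Representation ℂ SS (SS → ℂ) where
  toFun h :=
    { toFun := fun F x => F (h⁻¹ * x)
      map_add' := fun _ _ => rfl
      map_smul' := fun _ _ => rfl }
  map_one' := by
    ext F x
    simp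
  map_mul' := by
    intro g h
    ext F x
    simp [mul_assoc]

theorem reg_apply (h : SS) (F : SS → ℂ) (x : SS) : reg h F x = F (h⁻¹ * x) := rfl

def f0 (x : SS) : ℂ := sgn (dot t1 x.1.v) * cx (ex x.1.x)

theorem f0_ne : f0 ≠ 0 := by
  intro h
  have h1 := congrFun h 1
  have h2 : f0 1 = 1 := by
    change sgn (dot t1 (fun _ => false)) * cx (ex 1) = 1
    have h3 : ex 1 = some 0 := by decide +kernel
    have h4 : dot t1 (fun _ => false) = false := by decide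
    rw [h3, h4]
    simp [sgn, cx]
  rw [h2] at h1
  exact one_ne_zero h1

/-- elements of the subgroup -/
def sX (x : XX) (h : mono x.s = true) : SS := ⟨iX x, h⟩
def sV (f : V) : SS := ⟨iV f, (by decide : mono 1 = true)⟩

theorem iV_inv (f : V) : (iV f)⁻¹ = iV f := by
  rw [inv_eq_iff_mul_eq_one, iV_mul, add_self]
  rfl

theorem reg_sV (f : V) : reg (sV f) f0 = sgn (dot t1 f) • f0 := by
  funext x
  rw [reg_apply, Pi.smul_apply, smul_eq_mul]
  have h1 : ((sV f)⁻¹ * x : SS).1 = iV f * x.1 := by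
    change (iV f)⁻¹ * x.1 = _
    rw [iV_inv]
  have h2 : iV f * x.1 = ⟨add f x.1.v, x.1.x⟩ := by
    rw [GG.mul_def]
    change (⟨add f (act (1 : XX).s x.1.v), 1 * x.1.x⟩ : GG) = _
    rw [GG.act_x1, one_mul]
  unfold f0
  rw [h1, h2]
  change sgn (dot t1 (add f x.1.v)) * cx (ex x.1.x) = _
  rw [dot_add, sgn_xor]
  ring

theorem mono_xi : mono xi.s = true := by decide
theorem mono_xj : mono xj.s = true := by decide
theorem mono_xz : mono xz.s = true := by decide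

theorem reg_xi : reg (sX xi mono_xi) f0 = Complex.I • f0 := by
  funext x
  rw [reg_apply, Pi.smul_apply, smul_eq_mul]
  have h1 : ((sX xi mono_xi)⁻¹ * x : SS).1 = (iX xi⁻¹) * x.1 := by
    change (iX xi)⁻¹ * x.1 = _
    rw [iX_inv]
  have hpm : pm xi⁻¹.s := by
    refine ⟨?_, ?_, ?_⟩ <;> decide
  have h2 : iX xi⁻¹ * x.1 = ⟨x.1.v, xi⁻¹ * x.1.x⟩ := by
    rw [GG.mul_def]
    change (⟨add (fun _ => false) (act xi⁻¹.s x.1.v), xi⁻¹ * x.1.x⟩ : GG) = _
    rw [act_pm _ hpm, zero_add']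
  unfold f0
  rw [h1, h2]
  change sgn (dot t1 x.1.v) * cx (ex (xi⁻¹ * x.1.x)) = _
  rw [ex_xi, cx_succ]
  ring

theorem F9a : ∀ e f : Bool, ∀ a b c d : ZMod 5, ∀ h : a * d - b * c = 1, (b = 0 ∧ c = 0 ∧ a * a = 1) →
    (xi * (xj * ⟨e, f, ⟨a, b, c, d, h⟩⟩) = (xj * ⟨e, f, ⟨a, b, c, d, h⟩⟩) * xi⁻¹ ∧
      xi * (xj * (⟨e, f, ⟨a, b, c, d, h⟩⟩ : XX)⁻¹) = (xj * (⟨e, f, ⟨a, b, c, d, h⟩⟩ : XX)⁻¹) * xi⁻¹) ∨
    xj * (⟨e, f, ⟨a, b, c, d, h⟩⟩ : XX)⁻¹ = xj * ⟨e, f, ⟨a, b, c, d, h⟩⟩ * xz := by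
  decide +kernel

theorem F9 (x : XX) (h : pm x.s) : (xi * (xj * x) = (xj * x) * xi⁻¹ ∧ xi * (xj * x⁻¹) = (xj * x⁻¹) * xi⁻¹) ∨
    xj * x⁻¹ = xj * x * xz :=
  F9a x.e x.f x.s.a x.s.b x.s.c x.s.d x.s.h h

theorem F8 (s : SL) (h : mono s = true) : pm s ∨ ∃ p : ZMod 5, dot t1 (act s⁻¹ (dl p)) ≠ dot t1 (dl p) :=
  F8a s.a s.b s.c s.d s.h h

/-- there is an irreducible representation of `SS` with indicator `-1` -/
theorem exists_symplectic : ∃ (W : Type) (_ : AddCommGroup W) (_ : Module ℂ W) (_ : FiniteDimensional ℂ W)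
    (ρ : Representation ℂ SS W), ρ.IsIrreducible ∧ nu ρ = -1 := by
  obtain ⟨W, i1, i2, i3, ρ, hρ, v0, hv0, hv⟩ := exists_irr reg f0 f0_ne
  refine ⟨W, i1, i2, i3, ρ, hρ, ?_⟩
  have hV : ∀ f, ρ (sV f) v0 = sgn (dot t1 f) • v0 := fun f => hv _ _ (reg_sV f)
  have hI : ρ (sX xi mono_xi) v0 = Complex.I • v0 := hv _ _ reg_xi
  have hsm : ∀ (x y : XX) (hx : mono x.s = true) (hy : mono y.s = true),
      sX x hx * sX y hy = sX (x * y) (mono_xmul _ _ hx hy) := by
    intro x y hx hy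
    apply Subtype.ext
    exact iX_mul x y
  have hIi : ρ (sX xi mono_xi)⁻¹ v0 = (-Complex.I) • v0 := by
    have h1 := congrArg (ρ (sX xi mono_xi)⁻¹) hI
    rw [← rho_mul, inv_mul_cancel, rho_one, map_smul] at h1
    conv_rhs => rw [h1]
    rw [smul_smul, neg_mul, Complex.I_mul_I, neg_neg, one_smul]
  have hz : ρ (sX xz mono_xz) v0 = (-1 : ℂ) • v0 := by
    have h1 : sX xz mono_xz = sX xi mono_xi * sX xi mono_xi := by
      rw [hsm]
      apply Subtype.ext
      change iX xz = iX (xi * xi)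
      rw [xi_sq]
    rw [h1, rho_mul, hI, map_smul, hI, smul_smul, Complex.I_mul_I]
  refine nu_of_crit hρ v0 hv0 (sX xj mono_xj) (-1) ?_
  intro g
  have pj : pm xj.s := by refine ⟨?_, ?_, ?_⟩ <;> decide
  have pi : pm xi.s := by refine ⟨?_, ?_, ?_⟩ <;> decide
  have e1 : (sX xj mono_xj * g : SS).1 = ⟨g.1.v, xj * g.1.x⟩ := by
    change iX xj * g.1 = _
    rw [GG.mul_def]
    change (⟨add (fun _ => false) (act xj.s g.1.v), xj * g.1.x⟩ : GG) = _
    rw [act_pm _ pj, zero_add']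
  have e2 : (sX xj mono_xj * g⁻¹ : SS).1 = ⟨act g.1.x⁻¹.s g.1.v, xj * g.1.x⁻¹⟩ := by
    change iX xj * (g.1)⁻¹ = _
    rw [GG_inv, GG.mul_def]
    change (⟨add (fun _ => false) (act xj.s (act g.1.x⁻¹.s g.1.v)), xj * g.1.x⁻¹⟩ : GG) = _
    rw [act_pm _ pj, zero_add']
  -- vanishing from a moved character
  have hmove : ∀ (k : SS) (s : SL) (hk : ∀ f, act k.1.x.s f = act s f) (p : ZMod 5)
      (hp : dot t1 (act s⁻¹ (dl p)) ≠ dot t1 (dl p)), Zt ρ v0 k := by
    intro k s hk p hp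
    refine ⟨sV (dl p), sV (act s⁻¹ (dl p)), _, _, hV (dl p), hV _, (sgn_ne hp).symm, ?_⟩
    congr 2
    apply Subtype.ext
    change iV (dl p) * k.1 = k.1 * iV (act s⁻¹ (dl p))
    rw [GG.mul_def, GG.mul_def]
    change (⟨add (dl p) (act (1 : XX).s k.1.v), 1 * k.1.x⟩ : GG) = ⟨add k.1.v (act k.1.x.s (act s⁻¹ (dl p))), k.1.x * 1⟩
    rw [GG.act_x1, hk, ← act_mul, mul_inv_cancel, act_one, one_mul, mul_one, add_comm']
  have hk1 : ∀ f, act (sX xj mono_xj * g : SS).1.x.s f = act g.1.x.s f := by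
    intro f
    rw [e1]
    change act (SL.sg _ (1 * g.1.x.s)) f = _
    rw [act_sg, one_mul]
  have hk2 : ∀ f, act (sX xj mono_xj * g⁻¹ : SS).1.x.s f = act g.1.x.s⁻¹ f := by
    intro f
    rw [e2]
    change act (SL.sg _ (1 * SL.sg _ g.1.x.s⁻¹)) f = _
    rw [act_sg, one_mul, act_sg]
  -- vanishing from `xi`
  have hxi : ∀ (k : SS), xi * k.1.x = k.1.x * xi⁻¹ → Zt ρ v0 k := by
    intro k hk
    refine ⟨sX xi mono_xi, (sX xi mono_xi)⁻¹, _, _, hI, hIi, ?_, ?_⟩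
    · intro h
      have h1 : (2 : ℂ) * Complex.I = 0 := by linear_combination h
      rcases mul_eq_zero.1 h1 with h2 | h2
      · norm_num at h2
      · exact Complex.I_ne_zero h2
    · congr 2
      apply Subtype.ext
      change iX xi * k.1 = k.1 * (iX xi)⁻¹
      rw [iX_inv, GG.mul_def, GG.mul_def]
      change (⟨add (fun _ => false) (act xi.s k.1.v), xi * k.1.x⟩ : GG) =
        ⟨add k.1.v (act k.1.x.s (fun _ => false)), k.1.x * xi⁻¹⟩
      rw [act_pm _ pi, act_zero, zero_add', add_zero', hk]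
  rcases F8 g.1.x.s g.2 with hpm | ⟨p, hp⟩
  · rcases F9 g.1.x hpm with ⟨h1, h2⟩ | h1
    · left
      refine ⟨hxi _ ?_, hxi _ ?_⟩
      · rw [e1]; exact h1
      · rw [e2]; exact h2
    · right
      refine ⟨1, sX xz mono_xz, 1, -1, ?_, hz, by ring, ?_⟩
      · change ρ 1 v0 = (1 : ℂ) • v0
        rw [rho_one, one_smul]
      · congr 2
        rw [one_mul]
        apply Subtype.ext
        rw [e2]
        change _ = (sX xj mono_xj * g : SS).1 * iX xz
        rw [e1, GG.mul_def]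
        change (⟨act (SL.sg _ g.1.x.s⁻¹) g.1.v, xj * g.1.x⁻¹⟩ : GG) =
          ⟨add g.1.v (act (xj * g.1.x).s (fun _ => false)), xj * g.1.x * xz⟩
        rw [act_zero, add_zero', act_sg, act_inv_pm _ hpm, h1]
  · left
    refine ⟨hmove _ g.1.x.s hk1 p hp, ?_⟩
    have hmi : mono g.1.x.s⁻¹ = true := by rw [mono_inv]; exact g.2
    rcases F8 g.1.x.s⁻¹ hmi with hpm | ⟨q, hq⟩
    · exfalso
      apply hp
      rw [act_pm _ hpm]
    · exact hmove _ g.1.x.s⁻¹ hk2 q hq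

end Pool.Agent.Helper273.FS
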